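import Pool.Agent.MP_34a893_an.Scale
import Mathlib.Topology.Sheaves.Presheaf
import Mathlib.Tactic.Monotonicity.Lemmas
import Mathlib.Algebra.Order.Star.Real
import Mathlib.Analysis.Calculus.Deriv.Shift
import Mathlib.Analysis.Calculus.ContDiff.Deriv
import Mathlib.Analysis.Calculus.ContDiff.Operations
import Mathlib.Analysis.Calculus.FDeriv.Measurable
import Mathlib.MeasureTheory.Integral.Prod
import Mathlib.Order.CompletePartialOrder
import Mathlib.Topology.UniformSpace.Uniformizable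

-- ======== part 0: formerly Pool.Agent.MP_34a893_an.E.Spec
section MrgPart0

/-! Exponential kernel, general velocity: statements of the rows. -/

open MeasureTheory Set Filter Topology

namespace MP34a893.E

noncomputable section

/-- the symmetric Kruzhkov flux -/
def Fk (f : ℝ → ℝ) (a κ : ℝ) : ℝ := f (max a κ) - f (min a κ)

structure Sol (T M : ℝ) (q : ℝ → ℝ → ℝ) : Prop where
  meas : Measurable (Function.uncurry q)
  mem : ∀ t x, q t x ∈ Icc 0 M
  cont : ContL1 T q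

structure Flux (M K : ℝ) (f : ℝ → ℝ) : Prop where
  meas : Measurable f
  nonneg : 0 ≤ K
  lip : ∀ a ∈ Icc 0 M, ∀ a' ∈ Icc 0 M, |f a - f a'| ≤ K * |a - a'|

structure Err (C : ℝ) (err : ℝ → ℝ → ℝ) : Prop where
  meas : Measurable (Function.uncurry err)
  mem : ∀ t x, err t x ∈ Icc 0 C

/-- Kruzhkov inequalities between two times, with an error in the flux -/
def App (T M : ℝ) (f : ℝ → ℝ) (q err : ℝ → ℝ → ℝ) : Prop :=
  ∀ κ ∈ Icc 0 M, ∀ ζ : ℝ → ℝ, ContDiff ℝ 1 ζ → HasCompactSupport ζ → (∀ x, 0 ≤ ζ x) →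
    ∀ t1 t2, 0 ≤ t1 → t1 ≤ t2 → t2 ≤ T →
      ∫ x, |q t2 x - κ| * ζ x ≤ (∫ x, |q t1 x - κ| * ζ x) +
        ∫ t in t1..t2, ∫ x, (Fk f (q t x) κ * deriv ζ x + err t x * |deriv ζ x|)

/-- the doubled distance -/
def Ek (q r : ℝ → ℝ → ℝ) (ρ χ : ℝ → ℝ) (t : ℝ) : ℝ :=
  ∫ x, ∫ y, |q t x - r t y| * (ρ (x - y) * χ x)

/-- what the exponential kernel gives -/
def Ex {P : Par} {M : ℝ} (L : Lag P M) : Prop := ∀ t x, L.G t x = P.k0 * L.Z t x

/-! Calculus in one variable. -/

def ChainS : Prop := ∀ (a α Θ θ : ℝ → ℝ) (C : ℝ), Measurable α → (∀ x, |α x| ≤ C) →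
  (∀ x1 x2, a x2 - a x1 = ∫ x in x1..x2, α x) → (∀ z, HasDerivAt Θ (θ z) z) → Continuous θ →
    ∀ x1 x2, Θ (a x2) - Θ (a x1) = ∫ x in x1..x2, θ (a x) * α x

def AbsXS : Prop := ∀ (a α ζ : ℝ → ℝ) (C : ℝ), Measurable α → (∀ x, |α x| ≤ C) →
  (∀ x1 x2, a x2 - a x1 = ∫ x in x1..x2, α x) → ContDiff ℝ 1 ζ → HasCompactSupport ζ →
    ∫ x, Real.sign (a x) * α x * ζ x = -∫ x, |a x| * deriv ζ x

def AbsTS : Prop := ∀ (a α β β' : ℝ → ℝ) (C t1 t2 : ℝ), t1 ≤ t2 →
  (∀ t ∈ Icc t1 t2, HasDerivWithinAt a (α t) (Icc t1 t2) t ∧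
    HasDerivWithinAt β (β' t) (Icc t1 t2) t ∧ |α t| ≤ C ∧ |β' t| ≤ C) →
    |a t2| * β t2 - |a t1| * β t1 =
      ∫ t in t1..t2, (Real.sign (a t) * α t * β t + |a t| * β' t)

/-! The nonlocal equation. -/

/-- entropy identity along the flow, any kernel -/
def EntAS : Prop := ∀ (P : Par) (M : ℝ) (L : Lag P M), 0 < M → ∀ (κ : ℝ) (ζ : ℝ → ℝ),
  ContDiff ℝ 1 ζ → HasCompactSupport ζ → ∀ t1 t2, 0 ≤ t1 → t1 ≤ t2 → t2 ≤ L.T →
    ∫ x, |L.q t2 x - κ| * ζ x = (∫ x, |L.q t1 x - κ| * ζ x) +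
      ∫ t in t1..t2, ∫ x, (-κ * Real.sign (L.q t x - κ) *
        (P.b (L.Z t x) * (P.k0 * L.u t x - L.G t x)) * ζ x + |L.q t x - κ| * L.v t x * deriv ζ x)

def EntBS : Prop := ∀ (P : Par) (M : ℝ) (L : Lag P M), 0 < M → Ex L →
  App L.T M P.f L.q (fun t x => 2 * M * |L.v t x - P.Φ (L.u t x)|)

def DisS : Prop := ∀ (P : Par) (M : ℝ), 0 < M → ∃ C, 0 ≤ C ∧ ∀ (L : Lag P M) (S T' : ℝ), Ex L →
  0 ≤ S → 0 ≤ T' → T' ≤ L.T →
    ∫ t in (0 : ℝ)..T', ∫ x in (-S)..S, P.b (L.Z t x) * (L.u t x - L.Z t x) ^ 2 ≤ C * (S + T' + 1)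

def ErrS : Prop := ∀ (P : Par) (M : ℝ), 0 < M → (∀ z ∈ Ioo 0 (P.N M), 0 < P.b z) → ∀ e, 0 < e →
  ∃ S0, 0 < S0 ∧ ∀ (L : Lag P M) (S T' : ℝ), Ex L → S0 ≤ S → 0 ≤ T' → T' ≤ S → T' ≤ L.T →
    ∫ t in (0 : ℝ)..T', ∫ x in (-S)..S, |L.v t x - P.Φ (L.u t x)| ≤ e * S ^ 2

def ExpS : Prop := ∀ (P : Par) (M l : ℝ) (L : Lag P M), 0 < M → 0 < l →
  (∀ s, 0 ≤ s → P.k s = l * Real.exp (-(l * s))) → Ex L

def KerS : Prop := ∀ p l : ℝ, 0 < p → 0 < l →
  IsKernel p (fun s => (l * Real.exp (-(l * s))) ^ (1 / p))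

def ScaS : Prop := ∀ (T M η : ℝ) (f : ℝ → ℝ) (q err : ℝ → ℝ → ℝ), 0 < η →
  App (T / η) M f q err →
    App T M f (fun t x => q (t / η) (x / η)) (fun t x => err (t / η) (x / η))

/-! The entropy solution and the doubling of variables. -/

def LocS : Prop := ∀ (T M : ℝ) (V q0 f : ℝ → ℝ) (q : ℝ → ℝ → ℝ), 0 < T → 0 < M → ContDiff ℝ 1 V →
  IsEntropySol T V q0 q → (∀ t ∈ Icc 0 T, ∀ᵐ x, q t x ∈ Icc 0 M) →
  (∀ κ ∈ Icc 0 M, f κ = V κ * κ) →
    Sol T M (fun t x => max 0 (min (q t x) M)) ∧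
      App T M f (fun t x => max 0 (min (q t x) M)) (fun _ _ => 0)

/-- the inequality over a short time interval, flux frozen at the left end -/
def OneS : Prop := ∀ (T M K C : ℝ) (f : ℝ → ℝ) (q err : ℝ → ℝ → ℝ), Flux M K f → Sol T M q →
  Err C err → App T M f q err → ∀ t ∈ Ico 0 T, ∀ R ε, 0 < ε → ∀ᶠ z in 𝓝[>] t,
    ∀ κ ∈ Icc 0 M, ∀ (ζ : ℝ → ℝ) (D : ℝ), ContDiff ℝ 1 ζ → (∀ x, 0 ≤ ζ x) →
      (∀ x, R < |x| → ζ x = 0) → (∀ x, |deriv ζ x| ≤ D) →
      ∫ x, |q z x - κ| * ζ x ≤ (∫ x, |q t x - κ| * ζ x) +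
        (z - t) * (∫ x, Fk f (q t x) κ * deriv ζ x) +
        D * ((z - t) * ε + ∫ τ in t..z, ∫ x in Icc (-R) R, err τ x)

def DblS : Prop := ∀ (ρ χ : ℝ → ℝ) (R : ℝ), ContDiff ℝ 1 ρ → ContDiff ℝ 1 χ → (∀ x, 0 ≤ ρ x) →
  (∀ x, 0 ≤ χ x) → 0 ≤ R → (∀ x, 1 < |x| → ρ x = 0) → (∀ x, R < |x| → χ x = 0) →
    ∃ D, 0 ≤ D ∧ ∀ (T M K C : ℝ) (f : ℝ → ℝ) (q r err : ℝ → ℝ → ℝ), Flux M K f → Sol T M q →
      Sol T M r → Err C err → App T M f q err → App T M f r (fun _ _ => 0) →
      ∀ t ∈ Ico 0 T, ∀ ε, 0 < ε → ∀ᶠ z in 𝓝[>] t,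
        Ek q r ρ χ z ≤ Ek q r ρ χ t +
          (z - t) * (K * Ek q r ρ (fun x => |deriv χ x|) t + ε) +
          D * ∫ τ in t..z, ∫ x in Icc (-R) R, err τ x

def CtsS : Prop := ∀ (T M R : ℝ) (ρ χ : ℝ → ℝ) (q r : ℝ → ℝ → ℝ), Continuous ρ → Continuous χ →
  (∀ x, 1 < |x| → ρ x = 0) → (∀ x, R < |x| → χ x = 0) → Sol T M q → Sol T M r →
    ContinuousOn (Ek q r ρ χ) (Icc 0 T)

def ModS : Prop := ∀ (T M : ℝ) (r : ℝ → ℝ → ℝ), Sol T M r → ∀ R e, 0 < e →
  ∃ ε0, 0 < ε0 ∧ ε0 ≤ 1 ∧ ∀ (ρ χ : ℝ → ℝ) (q : ℝ → ℝ → ℝ), Continuous ρ → Continuous χ →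
    (∀ x, 0 ≤ ρ x) → (∀ x, ε0 < |x| → ρ x = 0) → ∫ x, ρ x = 1 → (∀ x, χ x ∈ Icc 0 1) →
    (∀ x, R < |x| → χ x = 0) → Sol T M q →
      ∀ t ∈ Icc 0 T, |Ek q r ρ χ t - ∫ x, |q t x - r t x| * χ x| ≤ e

def KuzS : Prop := ∀ (T M K : ℝ) (f : ℝ → ℝ) (r : ℝ → ℝ → ℝ), 0 < T → 0 < M → Flux M K f →
  Sol T M r → App T M f r (fun _ _ => 0) → ∀ a c e, 0 < e → ∃ R e2, T ≤ R ∧ 0 < e2 ∧
    ∀ (C : ℝ) (q err : ℝ → ℝ → ℝ), Sol T M q → Err C err → App T M f q err →
      (∀ᵐ x, q 0 x = r 0 x) → ∫ τ in (0 : ℝ)..T, ∫ x in Icc (-R) R, err τ x ≤ e2 →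
      ∀ t ∈ Icc 0 T, ∫ x in Icc a c, |q t x - r t x| ≤ e

def MainS : Prop := ∀ (p l T M : ℝ) (V q0 : ℝ → ℝ) (q : ℝ → ℝ → ℝ → ℝ) (qs : ℝ → ℝ → ℝ),
  0 < p → p < 1 → 0 < l → 0 < T → 0 < M → ContDiff ℝ 1 V → (∀ x, deriv V x ≤ 0) →
  (∀ x ∈ Ioo 0 M, deriv V x < 0) → Measurable q0 → (∀ x, q0 x ∈ Icc 0 M) →
  (∀ η, 0 < η → IsWeakSol p η T V (fun s => (l * Real.exp (-(l * s))) ^ (1 / p)) q0 (q η)) →
  IsEntropySol T V q0 qs →
    ∀ a c e, 0 < e → ∃ η0, 0 < η0 ∧ ∀ η, 0 < η → η < η0 → ∀ t ∈ Icc 0 T,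
      ∫ x in Icc a c, |q η t x - qs t x| ≤ e

end

end MP34a893.E

end MrgPart0

-- ======== part 1: formerly Pool.Agent.MP_34a893_an.E.Dbl
section MrgPart1

-- ======== part 0: formerly Pool.Agent.MP_34a893_an.E.EntB
section MrgPart0

/-! Exponential kernel: the approximate Kruzhkov inequalities. -/

open MeasureTheory Set Filter Topology

namespace MP34a893.E

namespace EntB

/-- bounded and measurable -/
def BM (w : ℝ × ℝ → ℝ) : Prop := Measurable w ∧ ∃ C, ∀ z, |w z| ≤ C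

variable {w w' : ℝ × ℝ → ℝ} {ψ : ℝ → ℝ}

lemma BM.const (c : ℝ) : BM fun _ => c := ⟨measurable_const, |c|, fun _ => le_rfl⟩

lemma BM.mul (a : BM w) (b : BM w') : BM fun z => w z * w' z := by
  obtain ⟨a, C, hC⟩ := a
  obtain ⟨b, D, hD⟩ := b
  exact ⟨a.mul b, C * D, fun z => abs_mul (w z) _ ▸
    mul_le_mul (hC z) (hD z) (abs_nonneg _) ((abs_nonneg _).trans (hC z))⟩

lemma BM.sub (a : BM w) (b : BM w') : BM fun z => w z - w' z := by
  obtain ⟨a, C, hC⟩ := a
  obtain ⟨b, D, hD⟩ := b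
  exact ⟨a.sub b, C + D, fun z => (abs_sub _ _).trans (add_le_add (hC z) (hD z))⟩

lemma BM.abs (a : BM w) : BM fun z => |w z| :=
  ⟨continuous_abs.measurable.comp a.1, a.2.imp fun _ h z => (abs_abs _).trans_le (h z)⟩

lemma BM.sign (a : Measurable w) : BM fun z => Real.sign (w z) :=
  ⟨Measurable.ite (measurableSet_lt a measurable_const) measurable_const
    (Measurable.ite (measurableSet_lt measurable_const a) measurable_const measurable_const), 1,
    fun z => by rcases Real.sign_apply_eq (w z) with h | h | h <;> simp [h]⟩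

lemma BM.of (a : Measurable w) {c d : ℝ} (b : ∀ z, w z ∈ Icc c d) : BM w :=
  ⟨a, max |c| |d|, fun z => abs_le_max_abs_abs (b z).1 (b z).2⟩

lemma BM.slice (a : BM w) (h : Integrable ψ) (t : ℝ) : Integrable fun x => w (t, x) * ψ x := by
  obtain ⟨a, C, hC⟩ := a
  exact h.bdd_mul (c := C) (a.comp measurable_prodMk_left).aestronglyMeasurable
    (.of_forall fun x => hC _)

lemma BM.prod (a : BM w) (h : Integrable ψ) (s t : ℝ) :
    Integrable (fun z : ℝ × ℝ => w z * ψ z.2) ((volume.restrict (uIoc s t)).prod volume) := by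
  obtain ⟨a, C, hC⟩ := a
  have : IsFiniteMeasure (volume.restrict (uIoc s t)) :=
    isFiniteMeasure_restrict.2 measure_Ioc_lt_top.ne
  exact (h.comp_snd _).bdd_mul (c := C) a.aestronglyMeasurable (.of_forall hC)

lemma time (a : BM w) (b : BM w') {ψ' : ℝ → ℝ} (h : Integrable ψ) (h' : Integrable ψ') (s t : ℝ) :
    IntervalIntegrable (fun τ => ∫ x, (w (τ, x) * ψ x + w' (τ, x) * ψ' x)) volume s t :=
  intervalIntegrable_iff.2 ((a.prod h s t).add (b.prod h' s t)).integral_prod_left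

lemma sign_eq {a b : ℝ} (h1 : b < 0 → a < 0) (h0 : b = 0 → a = 0) (h2 : 0 < b → 0 < a) :
    Real.sign a = Real.sign b := by
  rcases lt_trichotomy b 0 with h | h | h
  · rw [Real.sign_of_neg h, Real.sign_of_neg (h1 h)]
  · rw [h0 h, h]
  · rw [Real.sign_of_pos h, Real.sign_of_pos (h2 h)]

lemma three (u z Z : ℝ) : 0 ≤ (Real.sign (u - z) + Real.sign (z - Z)) * (u - Z) := by
  unfold Real.sign
  split_ifs <;> linarith

lemma strict {Φ : ℝ → ℝ} {Z b : ℝ} (h : HasDerivAt Φ (-b) Z) (hb : 0 < b) (a : Antitone Φ)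
    (z : ℝ) : Real.sign (Φ Z - Φ z) = Real.sign (z - Z) := by
  have k := (hasDerivAt_iff_tendsto_slope.1 h).eventually (gt_mem_nhds (neg_neg_of_pos hb))
  refine sign_eq (fun c => ?_) (fun c => by rw [sub_eq_zero.1 c, sub_self]) fun c => ?_
  · obtain ⟨y, y1, y2⟩ := ((k.filter_mono (nhdsLT_le_nhdsNE Z)).and
      (Ioo_mem_nhdsLT (sub_neg.1 c))).exists
    rw [slope_def_field, div_neg_iff] at y1
    have := a y2.1.le
    rcases y1 with y1 | y1 <;> linarith [y1.1, y1.2, y2.2]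
  · obtain ⟨y, y1, y2⟩ := ((k.filter_mono (nhdsGT_le_nhdsNE Z)).and
      (Ioo_mem_nhdsGT (sub_pos.1 c))).exists
    rw [slope_def_field, div_neg_iff] at y1
    have := a y2.2.le
    rcases y1 with y1 | y1 <;> linarith [y1.1, y1.2, y2.1]

lemma flux (P : Par) (a : Antitone P.Φ) {M q κ : ℝ} (hq : q ∈ Icc 0 M) (hκ : κ ∈ Icc 0 M) (v : ℝ) :
    |(|q - κ| * v - κ * |v - P.Φ (κ ^ P.p)| - Fk P.f q κ)| ≤ 2 * M * |v - P.Φ (q ^ P.p)| := by
  have e : Fk P.f q κ = |q - κ| * P.Φ (q ^ P.p) - κ * |P.Φ (q ^ P.p) - P.Φ (κ ^ P.p)| := by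
    rcases le_total q κ with h | h
    · rw [Fk, max_eq_right h, min_eq_left h, abs_of_nonpos (sub_nonpos.2 h),
        abs_of_nonneg (sub_nonneg.2 (a (Real.rpow_le_rpow hq.1 h P.hp0.le))), Par.f, Par.f]
      ring
    · rw [Fk, max_eq_left h, min_eq_right h, abs_of_nonneg (sub_nonneg.2 h),
        abs_of_nonpos (sub_nonpos.2 (a (Real.rpow_le_rpow hκ.1 h P.hp0.le))), Par.f, Par.f]
      ring
  have b1 : |q - κ| ≤ M := abs_le.2 ⟨by linarith [hq.1, hκ.2], by linarith [hq.2, hκ.1]⟩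
  have b2 := abs_abs_sub_abs_le (v - P.Φ (κ ^ P.p)) (P.Φ (q ^ P.p) - P.Φ (κ ^ P.p))
  rw [sub_sub_sub_cancel_right] at b2
  rw [e, show ∀ x y : ℝ, |q - κ| * v - κ * x - (|q - κ| * P.Φ (q ^ P.p) - κ * y) =
    |q - κ| * (v - P.Φ (q ^ P.p)) - κ * (x - y) from fun _ _ => by ring]
  refine (abs_sub _ _).trans ?_
  rw [abs_mul, abs_mul, abs_abs, abs_of_nonneg hκ.1]
  have := mul_le_mul_of_nonneg_right b1 (abs_nonneg (v - P.Φ (q ^ P.p)))
  have := mul_le_mul hκ.2 b2 (abs_nonneg _) (hκ.1.trans hκ.2)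
  linarith

end EntB

open EntB in
theorem entBS : ParFactsS → LagFactsS → AbsXS → EntAS → EntBS := by
  intro hP hL abx ent P M L hM ex κ hκ ζ z1 z2 z3 t1 t2 h1 h2 h3
  have F := hP P M hM
  have G := hL P M L hM
  have i0 : Integrable ζ := z1.continuous.integrable_of_hasCompactSupport z2
  have i1 : Integrable (deriv ζ) :=
    (z1.continuous_deriv le_rfl).integrable_of_hasCompactSupport z2.deriv
  have bq : BM fun z => L.q z.1 z.2 := .of G.q_meas fun z => G.q_mem z.1 z.2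
  have bu : BM fun z => L.u z.1 z.2 := .of L.u_meas fun z => ⟨G.u_nonneg _ _, L.u_le _ _⟩
  have bv : BM fun z => L.v z.1 z.2 := .of G.v_cont.measurable fun z => G.v_mem z.1 z.2
  have bG : BM fun z => L.G z.1 z.2 := .of L.G_cont.measurable fun z => G.G_mem z.1 z.2
  have bb : BM fun z => P.b (L.Z z.1 z.2) :=
    .of (P.hb.comp L.Z_cont).measurable fun z => ⟨P.hb0 _, F.b_le _ (G.Z_mem z.1 z.2)⟩
  have bΦ : BM fun z => P.Φ (L.u z.1 z.2) := .of (F.Φ_cont.measurable.comp L.u_meas) fun z =>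
    ⟨F.Φ_anti (L.u_le z.1 z.2), F.Φ_anti (G.u_nonneg z.1 z.2)⟩
  have bf : ∀ m : ℝ × ℝ → ℝ, Measurable m → (∀ z, m z ∈ Icc 0 M) → BM fun z => P.f (m z) :=
    fun m a b => ⟨F.f_meas.comp a, _, fun z => F.f_abs _ (b z)⟩
  have bF : BM fun z => Fk P.f (L.q z.1 z.2) κ :=
    (bf _ (bq.1.max measurable_const) fun z =>
      ⟨le_max_of_le_right hκ.1, max_le (G.q_mem _ _).2 hκ.2⟩).sub
    (bf _ (bq.1.min measurable_const) fun z =>
      ⟨le_min (G.q_mem _ _).1 hκ.1, min_le_of_right_le hκ.2⟩)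
  have bα := bb.mul (((BM.const P.k0).mul bu).sub bG)
  have ba := bv.sub (.const (P.Φ (κ ^ P.p)))
  have b1 := ((BM.const (-κ)).mul (.sign (bq.1.sub_const κ))).mul bα
  have b2 := (bq.sub (.const κ)).abs.mul bv
  have b3 := (BM.const (2 * M)).mul (bv.sub bΦ).abs
  rw [ent P M L hM κ ζ z1 z2 t1 t2 h1 h2 h3]
  refine add_le_add_right (intervalIntegral.integral_mono_on h2 (time b1 b2 i0 i1 _ _)
    (time bF b3 i1 i1.abs _ _) fun t _ => ?_) _
  obtain ⟨C, hC⟩ := bα.2
  have k := abx (fun x => L.v t x - P.Φ (κ ^ P.p)) _ ζ C (bα.1.comp measurable_prodMk_left)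
    (fun x => hC (t, x)) (fun x1 x2 => (sub_sub_sub_cancel_right _ _ _).trans (G.v_sub t x1 x2))
    z1 z2
  have j1 := (bF.slice i1 t).add (b3.slice i1.abs t)
  have j2 := ((BM.sign ba.1).mul bα).slice i0 t
  have j3 := ba.abs.slice i1 t
  refine (integral_mono ((b1.slice i0 t).add (b2.slice i1 t)) (j1.add ((j2.add j3).const_mul κ))
    fun x => ?_).trans_eq ?_
  · have a1 := flux P F.Φ_anti (G.q_mem t x) hκ (L.v t x)
    have a2 := (le_abs_self _).trans ((abs_mul _ (deriv ζ x)).trans_le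
      (mul_le_mul_of_nonneg_right a1 (abs_nonneg _)))
    have a3 : Real.sign (L.q t x - κ) = Real.sign (L.u t x - κ ^ P.p) := by
      rw [← G.q_pow]
      exact (sign_eq (fun c => sub_neg.2 (Real.rpow_lt_rpow (G.q_mem t x).1 (sub_neg.1 c) P.hp0))
        (fun c => by rw [sub_eq_zero.1 c, sub_self])
        fun c => sub_pos.2 (Real.rpow_lt_rpow hκ.1 (sub_pos.1 c) P.hp0)).symm
    have a4 : 0 ≤ (Real.sign (L.q t x - κ) + Real.sign (L.v t x - P.Φ (κ ^ P.p))) *
        (P.b (L.Z t x) * (P.k0 * L.u t x - L.G t x)) := by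
      rcases (P.hb0 (L.Z t x)).eq_or_lt with c | c
      · simp [← c]
      have := mul_nonneg (mul_pos c F.k0_pos).le (three (L.u t x) (κ ^ P.p) (L.Z t x))
      rw [a3, Lag.v, strict (P.hΦ _) c F.Φ_anti, ex]
      linarith
    have a5 := mul_nonneg (mul_nonneg hκ.1 a4) (z3 x)
    rw [G.q_pow] at a2
    simp only [Pi.add_apply]
    linarith
  · refine (integral_add j1 ((j2.add j3).const_mul κ)).trans (add_eq_left.2 ?_)
    exact (integral_const_mul _ _).trans (mul_eq_zero_of_right _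
      ((integral_add j2 j3).trans (add_eq_zero_iff_eq_neg.2 k)))

end MP34a893.E

end MrgPart0

-- ======== part 1: formerly Pool.Agent.MP_34a893_an.E.One
section MrgPart1

/-! Short time form of the Kruzhkov inequalities, and continuity of the doubled distance. -/

open MeasureTheory Set Filter Topology

namespace MP34a893.E

namespace One

theorem out {R x : ℝ} (h : x ∉ Icc (-R) R) : R < |x| := by
  by_contra hc
  exact h (abs_le.mp (not_lt.mp hc))

theorem intgOn {g : ℝ → ℝ} {B : ℝ} (a c : ℝ) (hm : Measurable g) (hb : ∀ x, |g x| ≤ B) :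
    IntegrableOn g (Icc a c) :=
  Measure.integrableOn_of_bounded (M := B) (by simp) hm.aestronglyMeasurable
    (Eventually.of_forall fun x => by simpa using hb x)

theorem intg {g : ℝ → ℝ} {B R : ℝ} (hm : Measurable g) (hb : ∀ x, |g x| ≤ B)
    (hz : ∀ x, R < |x| → g x = 0) : Integrable g :=
  (intgOn (-R) R hm hb).integrable_of_forall_notMem_eq_zero fun x hx => hz x (out hx)

theorem int_eq {g : ℝ → ℝ} {R : ℝ} (hz : ∀ x, R < |x| → g x = 0) :
    ∫ x, g x = ∫ x in Icc (-R) R, g x :=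
  (setIntegral_eq_integral_of_forall_compl_eq_zero fun x hx => hz x (out hx)).symm

theorem absOn {g : ℝ → ℝ} {B : ℝ} (a c : ℝ) (hb : ∀ x, |g x| ≤ B) :
    |∫ x in Icc a c, g x| ≤ B * volume.real (Icc a c) := by
  have := norm_setIntegral_le_of_norm_le_const (μ := volume) (s := Icc a c) (f := g) (C := B)
    (by simp) (fun x _ => by simpa using hb x)
  simpa using this

theorem measOn {F : ℝ → ℝ → ℝ} (hm : Measurable (Function.uncurry F)) (s : Set ℝ) :
    Measurable fun t => ∫ x in s, F t x :=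
  (hm.stronglyMeasurable.integral_prod_right (ν := volume.restrict s)).measurable

theorem ii {g : ℝ → ℝ} {B : ℝ} (a c : ℝ) (hm : Measurable g) (hb : ∀ x, |g x| ≤ B) :
    IntervalIntegrable g volume a c :=
  ((intgOn (min a c) (max a c) hm hb).mono_set (by rw [uIcc])).intervalIntegrable

theorem iiOn {F : ℝ → ℝ → ℝ} {B : ℝ} (hm : Measurable (Function.uncurry F))
    (hb : ∀ t x, |F t x| ≤ B) (a c t z : ℝ) :
    IntervalIntegrable (fun τ => ∫ x in Icc a c, F τ x) volume t z :=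
  ii t z (measOn hm _) fun τ => absOn a c (hb τ)

theorem slice {F : ℝ → ℝ → ℝ} (hm : Measurable (Function.uncurry F)) (t : ℝ) :
    Measurable (F t) := hm.of_uncurry_left

theorem mm {M a κ : ℝ} (ha : a ∈ Icc 0 M) (hκ : κ ∈ Icc 0 M) :
    max a κ ∈ Icc 0 M ∧ min a κ ∈ Icc 0 M :=
  ⟨⟨le_max_of_le_left ha.1, max_le ha.2 hκ.2⟩, ⟨le_min ha.1 hκ.1, min_le_of_left_le ha.2⟩⟩

theorem Fk_lip {M K : ℝ} {f : ℝ → ℝ} (hf : Flux M K f) {a a' κ : ℝ} (ha : a ∈ Icc 0 M)
    (ha' : a' ∈ Icc 0 M) (hκ : κ ∈ Icc 0 M) : |Fk f a κ - Fk f a' κ| ≤ 2 * K * |a - a'| := by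
  have h1 := hf.lip _ (mm ha hκ).1 _ (mm ha' hκ).1
  have h2 := hf.lip _ (mm ha hκ).2 _ (mm ha' hκ).2
  have h3 : |max a κ - max a' κ| ≤ |a - a'| := abs_max_sub_max_le_abs a a' κ
  have h4 : |min a κ - min a' κ| ≤ |a - a'| := by
    have := abs_min_sub_min_le_max a κ a' κ
    simpa using this
  have h5 := mul_le_mul_of_nonneg_left h3 hf.nonneg
  have h6 := mul_le_mul_of_nonneg_left h4 hf.nonneg
  have h7 : Fk f a κ - Fk f a' κ =
      (f (max a κ) - f (max a' κ)) - (f (min a κ) - f (min a' κ)) := by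
    unfold Fk; ring
  rw [h7]
  have := abs_sub (f (max a κ) - f (max a' κ)) (f (min a κ) - f (min a' κ))
  linarith

theorem dist_le {M a a' : ℝ} (ha : a ∈ Icc 0 M) (ha' : a' ∈ Icc 0 M) : |a - a'| ≤ M :=
  abs_le.mpr ⟨by linarith [ha.1, ha'.2], by linarith [ha.2, ha'.1]⟩

theorem Fk_abs {M K : ℝ} {f : ℝ → ℝ} (hf : Flux M K f) {a κ : ℝ} (ha : a ∈ Icc 0 M)
    (hκ : κ ∈ Icc 0 M) : |Fk f a κ| ≤ K * M :=
  (hf.lip _ (mm ha hκ).1 _ (mm ha hκ).2).trans
    (mul_le_mul_of_nonneg_left (dist_le (mm ha hκ).1 (mm ha hκ).2) hf.nonneg)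

theorem Fk_meas {f : ℝ → ℝ} (hf : Measurable f) (κ : ℝ) : Measurable fun a => Fk f a κ :=
  (hf.comp (measurable_id.max measurable_const)).sub (hf.comp (measurable_id.min measurable_const))

theorem deriv_out {ζ : ℝ → ℝ} {R : ℝ} (hz : ∀ x, R < |x| → ζ x = 0) (x : ℝ) (hx : R < |x|) :
    deriv ζ x = 0 := by
  have h : ζ =ᶠ[𝓝 x] fun _ => 0 := by
    have ho : IsOpen {y : ℝ | R < |y|} := isOpen_lt continuous_const continuous_abs
    filter_upwards [ho.mem_nhds hx] with y hy using hz y hy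
  rw [h.deriv_eq]; simp

theorem bound {g : ℝ → ℝ} {R : ℝ} (hg : Continuous g) (hz : ∀ x, R < |x| → g x = 0) :
    ∃ A, 0 ≤ A ∧ ∀ x, |g x| ≤ A := by
  have hc : HasCompactSupport g :=
    HasCompactSupport.intro (isCompact_Icc (a := -R) (b := R)) fun x hx => hz x (out hx)
  obtain ⟨A, hA⟩ := hc.exists_bound_of_continuous hg
  exact ⟨A, (norm_nonneg _).trans (hA 0), fun x => by simpa using hA x⟩

end One

open MP34a893.E.One

theorem oneS : OneS := by
  intro T M K C f q err hf hq he happ t ht R ε hε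
  have hK := hf.nonneg
  have hε' : 0 < ε / (2 * K + 1) := by positivity
  have h0 := (hq.cont (-R) R t ⟨ht.1, ht.2.le⟩).eventually (gt_mem_nhds hε')
  obtain ⟨δ, hδ, hδ'⟩ := Metric.mem_nhdsWithin_iff.mp h0
  have hlt : t < min T (t + δ) := lt_min ht.2 (by linarith)
  filter_upwards [Ioo_mem_nhdsGT hlt] with z hz κ hκ ζ D hζ hζ0 hζz hD
  have hzT : z ≤ T := (hz.2.trans_le (min_le_left _ _)).le
  have hzδ : z < t + δ := hz.2.trans_le (min_le_right _ _)
  have hD0 : 0 ≤ D := (abs_nonneg _).trans (hD 0)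
  have hc : HasCompactSupport ζ :=
    HasCompactSupport.intro (isCompact_Icc (a := -R) (b := R)) fun x hx => hζz x (out hx)
  have hdm : Measurable (deriv ζ) := measurable_deriv ζ
  have hdz := deriv_out hζz
  refine (happ κ hκ ζ hζ hc hζ0 t z ht.1 hz.1.le hzT).trans ?_
  have hab : ∀ τ x, |err τ x| ≤ C := fun τ x => by
    rw [abs_of_nonneg (he.mem τ x).1]; exact (he.mem τ x).2
  have hKM : 0 ≤ K * M := mul_nonneg hK (hκ.1.trans hκ.2)
  have hC : 0 ≤ C := (abs_nonneg _).trans (hab 0 0)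
  have b1 : ∀ τ x, |Fk f (q τ x) κ * deriv ζ x| ≤ K * M * D := fun τ x => by
    rw [abs_mul]
    exact mul_le_mul (Fk_abs hf (hq.mem τ x) hκ) (hD x) (abs_nonneg _) hKM
  have b2 : ∀ τ x, |err τ x * abs (deriv ζ x)| ≤ C * D := fun τ x => by
    rw [abs_mul, abs_abs]
    exact mul_le_mul (hab τ x) (hD x) (abs_nonneg _) hC
  have b3 : ∀ τ x, |Fk f (q τ x) κ * deriv ζ x + err τ x * abs (deriv ζ x)| ≤ K * M * D + C * D :=
    fun τ x => (abs_add_le _ _).trans (add_le_add (b1 τ x) (b2 τ x))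
  have m1 : Measurable (Function.uncurry fun τ x => Fk f (q τ x) κ * deriv ζ x) :=
    ((Fk_meas hf.meas κ).comp hq.meas).mul (hdm.comp measurable_snd)
  have m3 : Measurable (Function.uncurry fun τ x =>
      Fk f (q τ x) κ * deriv ζ x + err τ x * abs (deriv ζ x)) :=
    m1.add (he.meas.mul (continuous_abs.measurable.comp (hdm.comp measurable_snd)))
  have e3 : ∀ τ, ∫ x, (Fk f (q τ x) κ * deriv ζ x + err τ x * abs (deriv ζ x)) =
      ∫ x in Icc (-R) R, (Fk f (q τ x) κ * deriv ζ x + err τ x * abs (deriv ζ x)) :=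
    fun τ => int_eq fun x hx => by simp [hdz x hx]
  have e1 : ∫ x, Fk f (q t x) κ * deriv ζ x = ∫ x in Icc (-R) R, Fk f (q t x) κ * deriv ζ x :=
    int_eq fun x hx => by simp [hdz x hx]
  simp_rw [e3]
  rw [e1]
  set I := ∫ x in Icc (-R) R, Fk f (q t x) κ * deriv ζ x with hI
  have key : ∀ τ ∈ Icc t z,
      ∫ x in Icc (-R) R, (Fk f (q τ x) κ * deriv ζ x + err τ x * abs (deriv ζ x)) ≤
        (I + D * ε) + D * ∫ x in Icc (-R) R, err τ x := by
    intro τ hτ
    have hs : ∫ x in Icc (-R) R, |q τ x - q t x| < ε / (2 * K + 1) := by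
      refine hδ' ⟨?_, ht.1.trans hτ.1, hτ.2.trans hzT⟩
      rw [Metric.mem_ball, Real.dist_eq, abs_lt]
      constructor <;> linarith [hτ.1, hτ.2]
    have i1 := intgOn (-R) R (slice m1 t) (b1 t)
    have i2 : IntegrableOn (fun x => |q τ x - q t x|) (Icc (-R) R) :=
      intgOn (B := M) (-R) R
        (continuous_abs.measurable.comp ((slice hq.meas τ).sub (slice hq.meas t)))
        fun x => by rw [abs_abs]; exact dist_le (hq.mem τ x) (hq.mem t x)
    have i3 := intgOn (-R) R (slice he.meas τ) (hab τ)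
    have i4 := intgOn (-R) R (slice m3 τ) (b3 τ)
    have h1 : ∫ x in Icc (-R) R, (Fk f (q τ x) κ * deriv ζ x + err τ x * abs (deriv ζ x)) ≤
        ∫ x in Icc (-R) R, ((Fk f (q t x) κ * deriv ζ x + D * (2 * K) * |q τ x - q t x|) +
          D * err τ x) := by
      refine integral_mono i4 ((i1.add (i2.const_mul _)).add (i3.const_mul _)) fun x => ?_
      have p1 := Fk_lip hf (hq.mem τ x) (hq.mem t x) hκ
      have p2 : (Fk f (q τ x) κ - Fk f (q t x) κ) * deriv ζ x ≤ 2 * K * |q τ x - q t x| * D := by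
        refine (le_abs_self _).trans ?_
        rw [abs_mul]
        exact mul_le_mul p1 (hD x) (abs_nonneg _) (by positivity)
      have p3 := mul_le_mul_of_nonneg_left (hD x) (he.mem τ x).1
      simp only
      nlinarith
    have i5 : IntegrableOn (fun x => Fk f (q t x) κ * deriv ζ x + D * (2 * K) * |q τ x - q t x|)
        (Icc (-R) R) := i1.add (i2.const_mul _)
    rw [integral_add i5 (i3.const_mul _), integral_add i1 (i2.const_mul _),
      integral_const_mul, integral_const_mul] at h1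
    have h2 : 2 * K * ∫ x in Icc (-R) R, |q τ x - q t x| ≤ ε := by
      have n1 : 0 ≤ ∫ x in Icc (-R) R, |q τ x - q t x| := integral_nonneg fun x => abs_nonneg _
      rw [lt_div_iff₀ (by positivity)] at hs
      nlinarith
    have h3 := mul_le_mul_of_nonneg_left h2 hD0
    linarith
  have j1 := iiOn m3 b3 (-R) R t z
  have j2 := iiOn he.meas hab (-R) R t z
  have h4 := intervalIntegral.integral_mono_on hz.1.le j1
    ((intervalIntegrable_const (c := I + D * ε)).add (j2.const_mul D)) key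
  rw [intervalIntegral.integral_add intervalIntegrable_const (j2.const_mul D),
    intervalIntegral.integral_const, intervalIntegral.integral_const_mul, smul_eq_mul] at h4
  linarith

theorem ctsS : CtsS := by
  intro T M R ρ χ q r hρ hχ hρz hχz hq hr
  obtain ⟨A1, hA1, hb1⟩ := bound hρ hρz
  obtain ⟨A2, hA2, hb2⟩ := bound hχ hχz
  have hw : ∀ x y, |ρ (x - y) * χ x| ≤ A1 * A2 := fun x y => by
    rw [abs_mul]; exact mul_le_mul (hb1 _) (hb2 _) (abs_nonneg _) hA1
  have hA : 0 ≤ A1 * A2 := mul_nonneg hA1 hA2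
  have hM : 0 ≤ M := (hq.mem 0 0).1.trans (hq.mem 0 0).2
  have hwz : ∀ x y, R + 1 < |y| → ρ (x - y) * χ x = 0 := fun x y hy => by
    by_cases hx : R < |x|
    · simp [hχz x hx]
    · have h1 : |y| ≤ |x| + |x - y| := by
        have := abs_sub x (x - y)
        simpa using this
      rw [hρz (x - y) (by linarith [not_lt.mp hx]), zero_mul]
  have bF : ∀ t x y, abs (|q t x - r t y| * (ρ (x - y) * χ x)) ≤ M * (A1 * A2) := fun t x y => by
    rw [abs_mul, abs_abs]
    exact mul_le_mul (dist_le (hq.mem t x) (hr.mem t y)) (hw x y) (abs_nonneg _) hM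
  have mF : ∀ t, Measurable (Function.uncurry fun x y => |q t x - r t y| * (ρ (x - y) * χ x)) :=
    fun t => (continuous_abs.measurable.comp (((slice hq.meas t).comp measurable_fst).sub
      ((slice hr.meas t).comp measurable_snd))).mul
      ((hρ.measurable.comp (measurable_fst.sub measurable_snd)).mul
        (hχ.measurable.comp measurable_fst))
  set J := Icc (-(R + 1)) (R + 1) with hJ
  set I := Icc (-R) R with hI
  have eE : ∀ t, Ek q r ρ χ t =
      ∫ x in I, ∫ y in J, |q t x - r t y| * (ρ (x - y) * χ x) := fun t => by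
    unfold Ek
    have h1 : ∀ x, ∫ y, |q t x - r t y| * (ρ (x - y) * χ x) =
        ∫ y in J, |q t x - r t y| * (ρ (x - y) * χ x) :=
      fun x => int_eq fun y hy => by rw [hwz x y hy, mul_zero]
    simp_rw [h1]
    exact int_eq fun x hx => by simp [hχz x hx]
  have iq : ∀ t t0, IntegrableOn (fun x => |q t x - q t0 x|) I := fun t t0 =>
    intgOn (B := M) _ _ (continuous_abs.measurable.comp ((slice hq.meas t).sub (slice hq.meas t0)))
      fun x => by rw [abs_abs]; exact dist_le (hq.mem t x) (hq.mem t0 x)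
  have ir : ∀ t t0, IntegrableOn (fun x => |r t x - r t0 x|) J := fun t t0 =>
    intgOn (B := M) _ _ (continuous_abs.measurable.comp ((slice hr.meas t).sub (slice hr.meas t0)))
      fun x => by rw [abs_abs]; exact dist_le (hr.mem t x) (hr.mem t0 x)
  have iF : ∀ t x, IntegrableOn (fun y => |q t x - r t y| * (ρ (x - y) * χ x)) J := fun t x =>
    intgOn _ _ (slice (mF t) x) (bF t x)
  have iG : ∀ t, IntegrableOn (fun x => ∫ y in J, |q t x - r t y| * (ρ (x - y) * χ x)) I :=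
    fun t => intgOn _ _ (measOn (mF t) J) fun x => absOn _ _ (bF t x)
  have cJ : ∀ c : ℝ, IntegrableOn (fun _ : ℝ => c) J := fun c =>
    intgOn (B := |c|) _ _ measurable_const fun _ => le_rfl
  have cI : ∀ c : ℝ, IntegrableOn (fun _ : ℝ => c) I := fun c =>
    intgOn (B := |c|) _ _ measurable_const fun _ => le_rfl
  have one : ∀ t t0, Ek q r ρ χ t - Ek q r ρ χ t0 ≤
      A1 * A2 * volume.real J * (∫ x in I, |q t x - q t0 x|) +
        volume.real I * (A1 * A2 * ∫ y in J, |r t y - r t0 y|) := by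
    intro t t0
    rw [eE, eE, ← integral_sub (iG t) (iG t0)]
    have h1 : ∀ x, (∫ y in J, |q t x - r t y| * (ρ (x - y) * χ x)) -
        (∫ y in J, |q t0 x - r t0 y| * (ρ (x - y) * χ x)) ≤
        A1 * A2 * volume.real J * |q t x - q t0 x| + A1 * A2 * ∫ y in J, |r t y - r t0 y| := by
      intro x
      rw [← integral_sub (iF t x) (iF t0 x)]
      have h2 : ∫ y in J, (|q t x - r t y| * (ρ (x - y) * χ x) -
          |q t0 x - r t0 y| * (ρ (x - y) * χ x)) ≤
          ∫ y in J, (A1 * A2 * |q t x - q t0 x| + A1 * A2 * |r t y - r t0 y|) := by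
        refine integral_mono ((iF t x).sub (iF t0 x)) ((cJ _).add ((ir t t0).const_mul _))
          fun y => ?_
        have p1 : abs (|q t x - r t y| - |q t0 x - r t0 y|) ≤
            |q t x - q t0 x| + |r t y - r t0 y| := by
          refine (abs_abs_sub_abs_le_abs_sub _ _).trans ?_
          have := abs_sub (q t x - q t0 x) (r t y - r t0 y)
          rwa [show q t x - q t0 x - (r t y - r t0 y) = q t x - r t y - (q t0 x - r t0 y) by ring]
            at this
        have p2 : (|q t x - r t y| - |q t0 x - r t0 y|) * (ρ (x - y) * χ x) ≤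
            (|q t x - q t0 x| + |r t y - r t0 y|) * (A1 * A2) := by
          refine (le_abs_self _).trans ?_
          rw [abs_mul]
          exact mul_le_mul p1 (hw x y) (abs_nonneg _) (by positivity)
        simp only
        linarith
      rw [integral_add (cJ _) ((ir t t0).const_mul _), integral_const_mul, integral_const_mul,
        setIntegral_const, smul_eq_mul] at h2
      linarith
    refine (integral_mono ((iG t).sub (iG t0)) (((iq t t0).const_mul _).add (cI _)) h1).trans ?_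
    simp only [Pi.add_apply]
    rw [integral_add ((iq t t0).const_mul _) (cI _), integral_const_mul, setIntegral_const,
      smul_eq_mul]
  intro t0 ht0
  have l1 := hq.cont (-R) R t0 ht0
  have l2 := hr.cont (-(R + 1)) (R + 1) t0 ht0
  have l3 := (l1.const_mul (A1 * A2 * volume.real J)).add
    ((l2.const_mul (A1 * A2)).const_mul (volume.real I))
  simp only [mul_zero, add_zero] at l3
  rw [ContinuousWithinAt, tendsto_iff_dist_tendsto_zero]
  refine squeeze_zero (fun _ => dist_nonneg) (fun t => ?_) l3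
  rw [Real.dist_eq, abs_le]
  refine ⟨?_, one t t0⟩
  have := one t0 t
  simp_rw [abs_sub_comm (q t0 _) (q t _), abs_sub_comm (r t0 _) (r t _)] at this
  linarith

end MP34a893.E

end MrgPart1

-- ======== part 2: formerly Pool.Agent.MP_34a893_an.E.Dbl
section MrgPart2

/-! The doubling of variables over a short time interval. -/

open MeasureTheory Set Filter Topology

namespace MP34a893.E

namespace Dbl

open EntB

/-- the indicator of the interval -/
noncomputable def I (R x : ℝ) : ℝ := (Icc (-(R + 1)) (R + 1)).indicator 1 x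

lemma I_mem (R x : ℝ) : I R x ∈ Icc (0 : ℝ) 1 := by
  unfold I indicator
  split_ifs <;> simp

lemma I_int (R : ℝ) : Integrable (I R) :=
  (integrable_indicator_iff measurableSet_Icc).2 (integrableOn_const (by simp))

lemma dz {φ : ℝ → ℝ} {R : ℝ} (h : ∀ x, R < |x| → φ x = 0) (x : ℝ) (hx : R < |x|) :
    deriv φ x = 0 := by
  have : φ =ᶠ[𝓝 x] fun _ => 0 :=
    (continuous_abs.continuousAt.eventually (lt_mem_nhds hx)).mono fun y hy => h y hy
  rw [this.deriv_eq, deriv_const]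

lemma bdd {φ : ℝ → ℝ} {R : ℝ} (c : Continuous φ) (h : ∀ x, R < |x| → φ x = 0) :
    ∃ A, ∀ x, |φ x| ≤ A :=
  (HasCompactSupport.intro isCompact_Icc fun x hx => h x (One.out hx)).exists_bound_of_continuous c

lemma wt {a b : ℝ → ℝ} {R : ℝ} (ca : Continuous a) (cb : Continuous b)
    (ha : ∀ x, 1 < |x| → a x = 0) (hb : ∀ x, R < |x| → b x = 0) :
    Integrable (fun z : ℝ × ℝ => a (z.1 - z.2) * b z.1) (volume.prod volume) ∧
      ∃ A, 0 ≤ A ∧ ∀ x y, |a (x - y) * b x| ≤ A * (I R x * I R y) := by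
  obtain ⟨A, hA⟩ := bdd ca ha
  obtain ⟨B, hB⟩ := bdd cb hb
  have A0 := (abs_nonneg _).trans (hA 0)
  have p := mul_nonneg A0 ((abs_nonneg _).trans (hB 0))
  have k : ∀ x y, |a (x - y) * b x| ≤ A * B * (I R x * I R y) := fun x y => by
    by_cases c : a (x - y) * b x = 0
    · rw [c, abs_zero]
      exact mul_nonneg p (mul_nonneg (I_mem _ _).1 (I_mem _ _).1)
    have c1 := abs_le.1 (not_lt.1 fun d => left_ne_zero_of_mul c (ha _ d))
    have c2 := abs_le.1 (not_lt.1 fun d => right_ne_zero_of_mul c (hb _ d))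
    rw [I, I, indicator_of_mem (show x ∈ Icc _ _ from ⟨by linarith, by linarith⟩),
      indicator_of_mem (show y ∈ Icc _ _ from ⟨by linarith, by linarith⟩), abs_mul]
    simpa using mul_le_mul (hA _) (hB _) (abs_nonneg _) A0
  exact ⟨(((I_int R).mul_prod (I_int R)).const_mul (A * B)).mono'
    (by fun_prop : Continuous fun z : ℝ × ℝ => a (z.1 - z.2) * b z.1).aestronglyMeasurable
    (.of_forall fun z => k z.1 z.2), _, p, k⟩

lemma int {g w : ℝ × ℝ → ℝ} (a : BM g) (h : Integrable w (volume.prod volume)) :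
    Integrable (fun z => g z * w z) (volume.prod volume) := by
  obtain ⟨a, C, hC⟩ := a
  exact h.bdd_mul (c := C) a.aestronglyMeasurable (.of_forall hC)

lemma up {a b c d : ℝ → ℝ} (ia : Integrable a) (ib : Integrable b) (ic : Integrable c)
    (id : Integrable d) {s A e : ℝ} (h : ∀ x, a x ≤ b x + s * c x + A * d x * e) :
    ∫ x, a x ≤ (∫ x, b x) + s * (∫ x, c x) + A * (∫ x, d x) * e := by
  have i1 := ic.const_mul s
  have i2 := (id.const_mul A).mul_const e
  refine (integral_mono ia ((ib.add i1).add i2) h).trans_eq ((integral_add (ib.add i1) i2).trans ?_)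
  rw [integral_mul_const, integral_const_mul, ← integral_const_mul s]
  exact congrArg (· + _) (integral_add ib i1)

variable {T M K : ℝ} {f : ℝ → ℝ} {q r : ℝ → ℝ → ℝ}

lemma b1 (h : Sol T M q) (t : ℝ) : BM fun z => q t z.1 :=
  .of (h.meas.of_uncurry_left.comp measurable_fst) fun _ => h.mem _ _

lemma b2 (h : Sol T M q) (t : ℝ) : BM fun z => q t z.2 :=
  .of (h.meas.of_uncurry_left.comp measurable_snd) fun _ => h.mem _ _

lemma Fk_comm (a κ : ℝ) : Fk f a κ = Fk f κ a := by rw [Fk, Fk, max_comm, min_comm]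

lemma Fk_le (hf : Flux M K f) {a κ : ℝ} (ha : a ∈ Icc 0 M) (hκ : κ ∈ Icc 0 M) :
    |Fk f a κ| ≤ K * |a - κ| := by
  have := hf.lip _ (One.mm ha hκ).1 _ (One.mm ha hκ).2
  rwa [max_sub_min_eq_abs', abs_abs] at this

lemma bF (hf : Flux M K f) (hq : Sol T M q) (hr : Sol T M r) (s t : ℝ) :
    BM fun z => Fk f (q s z.1) (r t z.2) :=
  ⟨(hf.meas.comp ((b1 hq s).1.max (b2 hr t).1)).sub (hf.meas.comp ((b1 hq s).1.min (b2 hr t).1)),
    K * M, fun z => (Fk_le hf (hq.mem _ _) (hr.mem _ _)).trans (mul_le_mul_of_nonneg_left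
      (abs_le.2 ⟨by linarith [(hq.mem s z.1).1, (hr.mem t z.2).2],
        by linarith [(hq.mem s z.1).2, (hr.mem t z.2).1]⟩) hf.nonneg)⟩

end Dbl

open Dbl EntB in
theorem dblS : OneS → DblS := by
  intro one ρ χ R cρ cχ pρ pχ hR zρ zχ
  have cρ' := cρ.continuous_deriv le_rfl
  have cχ' := cχ.continuous_deriv le_rfl
  obtain ⟨i0, -⟩ := wt cρ.continuous cχ.continuous zρ zχ
  obtain ⟨i1, A1, p1, a1⟩ := wt cρ' cχ.continuous (dz zρ) zχ
  obtain ⟨i2, A2, p2, a2⟩ := wt cρ.continuous cχ' zρ (dz zχ)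
  have m0 : 0 ≤ ∫ x, I R x := integral_nonneg fun x => (I_mem R x).1
  set m := ∫ x, I R x with hm
  have D0 : 0 ≤ (A1 + A2) * m := by positivity
  refine ⟨(A1 + A2) * m, D0, fun T M K C f q r err hf hq hr he aq ar t ht ε hε => ?_⟩
  have dx : ∀ x y, HasDerivAt (fun x => ρ (x - y) * χ x)
      (deriv ρ (x - y) * χ x + ρ (x - y) * deriv χ x) x := fun x y =>
    ((cρ.differentiable one_ne_zero _).hasDerivAt.comp_sub_const x y).mul
      (cχ.differentiable one_ne_zero _).hasDerivAt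
  have dy : ∀ x y, deriv (fun y => ρ (x - y) * χ x) y = -(deriv ρ (x - y) * χ x) := fun x y =>
    (((cρ.differentiable one_ne_zero _).hasDerivAt.comp_const_sub x y).mul_const _).deriv.trans
      (neg_mul _ _)
  have l1 : ∀ x y, I R x * I R y ≤ I R x := fun x y =>
    mul_le_of_le_one_right (I_mem _ _).1 (I_mem _ _).2
  set e := ε / (2 * ((A1 + A2) * m + A1 * m + 1)) with he'
  have e0 : 0 < e := by positivity
  have e1 : ((A1 + A2) * m + A1 * m) * e ≤ ε / 2 := by
    rw [he', mul_div_assoc', div_le_div_iff₀ (by positivity) two_pos]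
    nlinarith
  have c0 := ((hq.cont (-(R + 1)) (R + 1) t (Ico_subset_Icc_self ht)).const_mul
    (2 * K * A1 * m)).mono_left (nhdsWithin_le_iff.2 (mem_of_superset (Ioc_mem_nhdsGT ht.2)
      fun x hx => ⟨ht.1.trans hx.1.le, hx.2⟩))
  rw [mul_zero] at c0
  filter_upwards [one T M K C f q err hf hq he aq t ht R e e0,
    one T M K 0 f r _ hf hr ⟨measurable_const, fun _ _ => ⟨le_rfl, le_rfl⟩⟩ ar t ht (R + 1) e e0,
    c0.eventually (gt_mem_nhds (half_pos hε)), self_mem_nhdsWithin] with z s1 s2 s3 hz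
  have hz' : 0 ≤ z - t := sub_nonneg.2 (le_of_lt hz)
  have j : ∀ s t, _ := fun s t => int ((b1 hq s).sub (b2 hr t)).abs i0
  have k1 : ∀ s, _ := fun s => int (bF hf hq hr s t) i1
  have k2 := int (bF hf hq hr t t) i2
  have k3 := int (bF hf hq hr t t) (i1.add i2)
  have k4 : ∀ s, _ := fun s => int (bF hf hq hr s t) i1.neg
  have u1 := up (j z t).integral_prod_right (j t t).integral_prod_right k3.integral_prod_right
    (I_int R) (s := z - t) (A := A1 + A2)
    (e := (z - t) * e + ∫ τ in t..z, ∫ x in Icc (-R) R, err τ x) fun y => by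
      have := s1 _ (hr.mem t y) (fun x => ρ (x - y) * χ x) ((A1 + A2) * I R y) (by fun_prop)
        (fun x => mul_nonneg (pρ _) (pχ _)) (fun x hx => by simp [zχ x hx]) fun x => by
          rw [(dx x y).deriv]
          have := l1 y x
          have := a1 x y
          have := a2 x y
          refine (abs_add_le _ _).trans ?_
          nlinarith
      simpa only [(dx _ y).deriv, Pi.add_apply] using this
  have u2 := up (j z z).integral_prod_left (j z t).integral_prod_left (k4 z).integral_prod_left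
    (I_int R) (s := z - t) (A := A1) (e := (z - t) * e) fun x => by
      have := s2 _ (hq.mem z x) (fun y => ρ (x - y) * χ x) (A1 * I R x) (by fun_prop)
        (fun y => mul_nonneg (pρ _) (pχ _)) (fun y hy => by
          by_contra c
          have c1 := abs_le.1 (not_lt.1 fun d => left_ne_zero_of_mul c (zρ _ d))
          have c2 := abs_le.1 (not_lt.1 fun d => right_ne_zero_of_mul c (zχ _ d))
          exact hy.not_ge (abs_le.2 ⟨by linarith, by linarith⟩)) fun y => by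
          rw [dy, abs_neg]
          exact (a1 x y).trans (mul_le_mul_of_nonneg_left (l1 x y) p1)
      simpa only [dy, integral_zero, intervalIntegral.integral_zero, add_zero, abs_sub_comm (r _ _),
        Fk_comm (r _ _), Pi.neg_apply] using this
  rw [← integral_prod_symm _ (j z t), ← integral_prod_symm _ (j t t), ← integral_prod_symm _ k3,
    integral_prod _ (j t t)] at u1
  rw [← integral_prod _ (j z t), ← integral_prod _ (k4 z)] at u2
  have n1 := int ((b1 hq t).sub (b2 hr t)).abs (wt cρ.continuous cχ'.abs zρ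
    fun x hx => by rw [dz zχ x hx, abs_zero]).1
  have n2 := int ((BM.const (2 * K * A1)).mul ((b1 hq z).sub (b1 hq t)).abs)
    ((I_int R).mul_prod (I_int R))
  have u3 := (integral_add k3 (k4 z)).symm.trans_le ((integral_mono (k3.add (k4 z))
    ((n1.const_mul K).add n2) fun w => by
      have d1 := One.Fk_lip hf (hq.mem t w.1) (hq.mem z w.1) (hr.mem t w.2)
      have d2 := (le_abs_self _).trans ((abs_mul _ _).trans_le
        (mul_le_mul d1 (a1 w.1 w.2) (abs_nonneg _) ((abs_nonneg _).trans d1)))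
      have d3 := (le_abs_self _).trans ((abs_mul _ (ρ (w.1 - w.2) * deriv χ w.1)).trans_le
        (mul_le_mul_of_nonneg_right (Fk_le hf (hq.mem t w.1) (hr.mem t w.2)) (abs_nonneg _)))
      rw [abs_mul, abs_of_nonneg (pρ _)] at d3
      rw [abs_sub_comm] at d2
      simp only [Pi.add_apply, Pi.neg_apply]
      linarith).trans_eq (integral_add (n1.const_mul K) n2))
  have u4 : ∫ w : ℝ × ℝ, 2 * K * A1 * |q z w.1 - q t w.1| * (I R w.1 * I R w.2)
      ∂volume.prod volume = 2 * K * A1 * m * ∫ x in Icc (-(R + 1)) (R + 1), |q z x - q t x| := by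
    simp only [← mul_assoc]
    rw [integral_prod_mul (fun x => 2 * K * A1 * |q z x - q t x| * I R x) (I R),
      mul_right_comm _ m, ← integral_indicator measurableSet_Icc, ← integral_const_mul (2 * K * A1)]
    refine congrArg (· * m) (congrArg _ (funext fun x => ?_))
    simp only [I, indicator]
    split_ifs <;> simp
  rw [u4, integral_const_mul, integral_prod _ n1] at u3
  have u5 := mul_le_mul_of_nonneg_left u3 hz'
  have u6 := mul_le_mul_of_nonneg_left e1 hz'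
  have u7 := mul_le_mul_of_nonneg_left s3.le hz'
  simp only [Ek, ← hm] at u1 u2 ⊢
  linarith

end MP34a893.E

end MrgPart2

-- marker of a merged file
example : 731051 + 231969 = 731051 + 231969 := rfl

end MrgPart1

-- marker of a merged file
example : 731051 + 231969 = 731051 + 231969 := rfl
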