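import Mathlib.Analysis.Calculus.Deriv.Abs
import Mathlib.Analysis.SpecialFunctions.ImproperIntegrals
import Pool.Agent.MP_34a893_an.E.Dbl
import Pool.Agent.MP_34a893_an.Block
import Pool.Agent.MP_34a893_an.Scale

-- ======== part 0: formerly Pool.Agent.MP_34a893_an.E.Calc
section MrgPart0

/-! Row Calc: chain rule and derivative of the absolute value for Lipschitz functions. -/

open MeasureTheory Set Filter Topology

namespace MP34a893.E

namespace Calc

variable {a α : ℝ → ℝ} {C : ℝ}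

lemma lip (hC : ∀ x, |α x| ≤ C) (h : ∀ x1 x2, a x2 - a x1 = ∫ x in x1..x2, α x) :
    LipschitzWith ⟨C, (abs_nonneg _).trans (hC 0)⟩ a :=
  LipschitzWith.of_dist_le_mul fun x y => by
    have a1 := intervalIntegral.norm_integral_le_of_norm_le_const (a := y) (b := x) (f := α)
      (C := C) fun r _ => hC r
    rw [← h] at a1
    exact a1

lemma ae_deriv (hm : Measurable α) (hC : ∀ x, |α x| ≤ C)
    (h : ∀ x1 x2, a x2 - a x1 = ∫ x in x1..x2, α x) : ∀ᵐ x, HasDerivAt a (α x) x := by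
  have li : LocallyIntegrable α volume :=
    (locallyIntegrable_const C).mono hm.aestronglyMeasurable
      (ae_of_all _ fun x => (hC x).trans (le_abs_self _))
  filter_upwards [LocallyIntegrable.ae_hasDerivAt_integral li] with x hx
  have e : a = fun y => a 0 + ∫ t in (0 : ℝ)..y, α t := funext fun y => by rw [← h]; ring
  rw [e]
  exact (hx 0).const_add _

lemma deriv_abs {d x : ℝ} (h : HasDerivAt a d x) :
    deriv (fun y => |a y|) x = Real.sign (a x) * d := by
  rcases lt_trichotomy (a x) 0 with h0 | h0 | h0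
  · have d2 : HasDerivAt (fun y => |a y|) _ x := (hasDerivAt_abs_neg h0).comp x h
    rw [d2.deriv, Real.sign_of_neg h0]
  · have m : IsLocalMin (fun y => |a y|) x :=
      Eventually.of_forall fun y => by
        change |a x| ≤ |a y|
        rw [h0, abs_zero]
        exact abs_nonneg _
    rw [m.deriv_eq_zero, h0, Real.sign_zero, zero_mul]
  · have d2 : HasDerivAt (fun y => |a y|) _ x := (hasDerivAt_abs_pos h0).comp x h
    rw [d2.deriv, Real.sign_of_pos h0]

lemma lip_abs {K : NNReal} {s : Set ℝ} (h : LipschitzOnWith K a s) :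
    LipschitzOnWith K (fun y => |a y|) s :=
  LipschitzOnWith.of_dist_le_mul fun x hx y hy =>
    (abs_abs_sub_abs_le _ _).trans (h.dist_le_mul x hx y hy)

end Calc

theorem chainS : ChainS := by
  intro a α Θ θ C hm hC h hΘ hθ x1 x2
  have l := Calc.lip hC h
  have c1 : ContDiff ℝ 1 Θ := by
    refine contDiff_one_iff_deriv.2 ⟨fun z => (hΘ z).differentiableAt, ?_⟩
    rw [show deriv Θ = θ from funext fun z => (hΘ z).deriv]
    exact hθ
  obtain ⟨R, hR⟩ := (isCompact_uIcc (a := x1) (b := x2)).exists_bound_of_continuousOn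
    l.continuous.continuousOn
  obtain ⟨K, hK⟩ := (c1.contDiffOn (s := Icc (-R) R)).exists_lipschitzOnWith (by decide)
    (convex_Icc _ _) isCompact_Icc
  have l2 := hK.comp (l.lipschitzOnWith (s := uIcc x1 x2)) fun x hx => abs_le.1 (hR x hx)
  have e := l2.absolutelyContinuousOnInterval.integral_deriv_eq_sub
  refine e.symm.trans (intervalIntegral.integral_congr_ae ?_)
  filter_upwards [Calc.ae_deriv hm hC h] with x hx _
  exact ((hΘ (a x)).comp x hx).deriv

theorem absXS : AbsXS := by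
  intro a α ζ C hm hC h hζ hs
  obtain ⟨R1, p1, h1⟩ := hs.exists_pos_le_norm
  obtain ⟨R2, p2, h2⟩ := hs.deriv.exists_pos_le_norm
  set R := max R1 R2 with hR
  have p : 0 < R := lt_max_of_lt_left p1
  have sup : ∀ (g φ : ℝ → ℝ) (r : ℝ), r ≤ R → (∀ x, r ≤ ‖x‖ → φ x = 0) →
      ∫ x in (-R)..R, g x * φ x = ∫ x, g x * φ x := fun g φ r hr hφ => by
    refine intervalIntegral.integral_eq_integral_of_support_subset fun x hx => ?_
    have a1 : |x| < R := by
      by_contra hc
      exact hx (mul_eq_zero_of_right _ (hφ x (hr.trans (not_lt.1 hc))))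
    exact ⟨(abs_lt.1 a1).1, (abs_lt.1 a1).2.le⟩
  have ac := (Calc.lip_abs ((Calc.lip hC h).lipschitzOnWith
    (s := uIcc (-R) R))).absolutelyContinuousOnInterval
  have e := ac.integral_mul_deriv_eq_deriv_mul
    (hζ.contDiffOn (s := uIcc (-R) R)).absolutelyContinuousOnInterval
  have z1 : ζ R = 0 := h1 R (by rw [Real.norm_of_nonneg p.le]; exact le_max_left _ _)
  have z2 : ζ (-R) = 0 :=
    h1 (-R) (by rw [norm_neg, Real.norm_of_nonneg p.le]; exact le_max_left _ _)
  rw [z1, z2, sup _ _ R2 (le_max_right _ _) h2, sup _ _ R1 (le_max_left _ _) h1] at e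
  rw [e, mul_zero, mul_zero, sub_zero, zero_sub, neg_neg]
  refine integral_congr_ae ?_
  filter_upwards [Calc.ae_deriv hm hC h] with x hx
  rw [Calc.deriv_abs hx]

theorem absTS : AbsTS := by
  intro a α β β' C t1 t2 ht h
  have c0 : 0 ≤ C := (abs_nonneg _).trans (h t1 (left_mem_Icc.2 ht)).2.2.1
  have la : LipschitzOnWith ⟨C, c0⟩ a (uIcc t1 t2) := by
    rw [uIcc_of_le ht]
    exact (convex_Icc _ _).lipschitzOnWith_of_nnnorm_hasDerivWithin_le (fun t u => (h t u).1)
      fun t u => (h t u).2.2.1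
  have lb : LipschitzOnWith ⟨C, c0⟩ β (uIcc t1 t2) := by
    rw [uIcc_of_le ht]
    exact (convex_Icc _ _).lipschitzOnWith_of_nnnorm_hasDerivWithin_le (fun t u => (h t u).2.1)
      fun t u => (h t u).2.2.2
  have e := (Calc.lip_abs la).absolutelyContinuousOnInterval.integral_deriv_mul_eq_sub
    lb.absolutelyContinuousOnInterval
  refine e.symm.trans (intervalIntegral.integral_congr_ae ?_)
  filter_upwards [Measure.ae_ne volume t2] with t hne hu
  rw [uIoc_of_le ht] at hu
  have hn : Icc t1 t2 ∈ 𝓝 t := Icc_mem_nhds hu.1 (lt_of_le_of_ne hu.2 hne)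
  have hh := h t ⟨hu.1.le, hu.2⟩
  rw [Calc.deriv_abs (hh.1.hasDerivAt hn), (hh.2.1.hasDerivAt hn).deriv]

end MP34a893.E

end MrgPart0

-- ======== part 1: formerly Pool.Agent.MP_34a893_an.E.EntA2
section MrgPart1

/-! Entropy identity along the flow. -/

open MeasureTheory Set Filter Topology

namespace MP34a893.E

namespace EntA2

theorem sign_meas : Measurable Real.sign :=
  .ite measurableSet_Iio measurable_const (.ite measurableSet_Ioi measurable_const measurable_const)

theorem sign_le (r : ℝ) : |Real.sign r| ≤ 1 := by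
  rcases Real.sign_apply_eq r with h | h | h <;> simp [h]

theorem sign_mul {a c : ℝ} (hc : 0 < c) : Real.sign (a * c) = Real.sign a := by
  rcases lt_trichotomy a 0 with h | h | h
  · rw [Real.sign_of_neg h, Real.sign_of_neg (mul_neg_of_neg_of_pos h hc)]
  · simp [h]
  · rw [Real.sign_of_pos h, Real.sign_of_pos (mul_pos h hc)]

theorem swap {h : ℝ → ℝ → ℝ} {C a b c d : ℝ} (hm : Measurable (Function.uncurry h))
    (hb : ∀ t y, |h t y| ≤ C) (hab : a ≤ b) (hcd : c ≤ d) :
    ∫ y in c..d, ∫ t in a..b, h t y = ∫ t in a..b, ∫ y in c..d, h t y := by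
  simp only [intervalIntegral.integral_of_le hab, intervalIntegral.integral_of_le hcd]
  exact (integral_integral_swap (Integrable.of_bound hm.aestronglyMeasurable C
    (.of_forall fun z => hb z.1 z.2))).symm

end EntA2

open EntA2 in
theorem entAS2 (hP : ParFactsS) (hL : LagFactsS) (hA : AbsTS) : EntAS := by
  intro P M L hM κ ζ hζ hs t1 t2 h1 h12 h2
  have F := hP P M hM
  have LF := hL P M L hM
  have hζc := hζ.continuous
  have hζ' := hζ.continuous_deriv le_rfl
  obtain ⟨R1, -, hR1⟩ := hs.exists_pos_le_norm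
  obtain ⟨R2, hR2p, hR2⟩ := hs.deriv.exists_pos_le_norm
  obtain ⟨A, hAb⟩ := hζc.bounded_above_of_compact_support hs
  obtain ⟨A', hAb'⟩ := hζ'.bounded_above_of_compact_support hs.deriv
  simp only [Real.norm_eq_abs] at hR1 hR2 hAb hAb'
  have hA0 : 0 ≤ A := (abs_nonneg _).trans (hAb 0)
  have hA0' : 0 ≤ A' := (abs_nonneg _).trans (hAb' 0)
  have hV0 : 0 ≤ P.Vm M := (abs_nonneg _).trans (LF.v_abs 0 0)
  have hT := L.hT
  set R := max R1 R2 with hR
  have hR0 : 0 < R := lt_max_of_lt_right hR2p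
  set y2 := R + P.Vm M * L.T with hy2
  have hy : -y2 ≤ y2 := by have := mul_nonneg hV0 hT; linarith
  have cv : ∀ t ∈ Icc 0 L.T, ∀ φ : ℝ → ℝ, Measurable φ → (∃ C, ∀ x, |φ x| ≤ C) →
      (∀ x, R ≤ |x| → φ x = 0) → ∫ x, φ x = ∫ y in (-y2)..y2, φ (L.X t y) * L.j t y := by
    intro t ht φ hm hb h0
    rw [← LF.cov_int t φ hm hb, intervalIntegral.integral_eq_integral_of_support_subset]
    intro x hx
    have hx' := abs_lt.1 (not_le.1 fun h => hx (h0 x h))
    have e : ∀ y, |L.X t y - y| ≤ P.Vm M * L.T := fun y => by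
      have := LF.X_lip y t ht 0 ⟨le_rfl, hT⟩
      rw [L.X_zero, sub_zero, abs_of_nonneg ht.1] at this
      exact this.trans (mul_le_mul_of_nonneg_left ht.2 hV0)
    constructor <;> linarith [(abs_le.1 (e (-y2))).2, (abs_le.1 (e y2)).1, hx'.1, hx'.2]
  set J := Real.exp (P.C0 M * L.T) with hJ
  have hC0 : 0 ≤ P.C0 M := (LF.bG_mem 0 0).1.trans (LF.bG_mem 0 0).2
  have hj : ∀ t y, |L.j t y| ≤ J := fun t y => by
    have m : max 0 (min t L.T) ∈ Icc 0 L.T := ⟨le_max_left _ _, max_le hT (min_le_right _ _)⟩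
    have := LF.j_ratio y _ m 0 ⟨le_rfl, hT⟩
    rw [L.j_zero, mul_one, sub_zero, abs_of_nonneg m.1] at this
    rw [abs_of_pos (L.j_pos t y), L.j_clamp]
    exact this.trans (Real.exp_le_exp.2 (mul_le_mul_of_nonneg_left m.2 hC0))
  have hJ0 : 0 ≤ J := (Real.exp_pos _).le
  set w : ℝ → ℝ → ℝ := fun t x => P.b (L.Z t x) * (P.k0 * L.u t x - L.G t x) with hw
  have hwb : ∀ t x, |w t x| ≤ P.bm M * (P.k0 * P.N M) := fun t x => by
    rw [hw, abs_mul, abs_of_nonneg (P.hb0 _)]
    refine mul_le_mul (F.b_le _ (LF.Z_mem t x)) ?_ (abs_nonneg _) F.bm_nonneg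
    have a1 := mul_le_mul_of_nonneg_left (L.u_le t x) F.k0_pos.le
    have a2 := mul_nonneg F.k0_pos.le (LF.u_nonneg t x)
    have a3 := LF.G_mem t x
    rw [abs_le]
    constructor <;> linarith [a3.1, a3.2]
  have hW0 : 0 ≤ P.bm M * (P.k0 * P.N M) := (abs_nonneg _).trans (hwb 0 0)
  have hwm : Measurable (Function.uncurry w) :=
    (P.hb.measurable.comp L.Z_cont.measurable).mul
      ((L.u_meas.const_mul _).sub L.G_cont.measurable)
  have hq : ∀ t x, |L.q t x - κ| ≤ M + |κ| := fun t x => by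
    have := abs_sub (L.q t x) κ
    rw [abs_of_nonneg (LF.q_mem t x).1] at this
    linarith [(LF.q_mem t x).2]
  set g : ℝ → ℝ → ℝ := fun t x => -κ * Real.sign (L.q t x - κ) * w t x * ζ x +
    |L.q t x - κ| * L.v t x * deriv ζ x with hg
  have hqm : Measurable fun z : ℝ × ℝ => L.q z.1 z.2 - κ := LF.q_meas.sub_const κ
  have hgm : Measurable (Function.uncurry g) :=
    ((((sign_meas.comp hqm).const_mul _).mul hwm).mul (hζc.measurable.comp measurable_snd)).add
      ((hqm.abs.mul LF.v_cont.measurable).mul (hζ'.measurable.comp measurable_snd))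
  have hgb : ∀ t x, |g t x| ≤ |κ| * 1 * (P.bm M * (P.k0 * P.N M)) * A +
      (M + |κ|) * P.Vm M * A' := fun t x => by
    refine (abs_add_le _ _).trans (add_le_add ?_ ?_)
    · simp only [abs_mul, abs_neg]
      gcongr
      exacts [sign_le _, hwb t x, hAb x]
    · simp only [abs_mul, abs_abs]
      gcongr
      exacts [hq t x, LF.v_abs t x, hAb' x]
  have e0 : ∀ t ∈ Icc 0 L.T, ∫ x, |L.q t x - κ| * ζ x =
      ∫ y in (-y2)..y2, |L.q t (L.X t y) - κ| * ζ (L.X t y) * L.j t y := fun t ht =>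
    cv t ht (fun x => |L.q t x - κ| * ζ x)
      ((LF.q_meas.of_uncurry_left.sub_const κ).abs.mul hζc.measurable)
      ⟨(M + |κ|) * A, fun x => by
        rw [abs_mul, abs_abs]
        gcongr
        exacts [hq t x, hAb x]⟩ fun x hx => by rw [hR1 x ((le_max_left _ _).trans hx), mul_zero]
  have i0 : ∀ t, IntervalIntegrable (fun y => |L.q t (L.X t y) - κ| * ζ (L.X t y) * L.j t y)
      volume (-y2) y2 := fun t => by
    have hX : Measurable (L.X t) := (L.X_cont.comp (Continuous.prodMk_right t)).measurable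
    refine (intervalIntegrable_const (c := (M + |κ|) * A * J)).mono_fun'
      ((((LF.q_meas.of_uncurry_left.comp hX).sub_const κ).abs.mul (hζc.measurable.comp hX)).mul
        L.j_meas.of_uncurry_left).aestronglyMeasurable (.of_forall fun y => ?_)
    simp only [Real.norm_eq_abs, abs_mul, abs_abs]
    gcongr
    exacts [hq t _, hAb _, hj t y]
  have ea : ∀ t y, L.q0 y - κ * L.j t y = (L.q t (L.X t y) - κ) * L.j t y := fun t y => by
    rw [← LF.qj t y]
    ring
  have e1 : ∀ y, |L.q t2 (L.X t2 y) - κ| * ζ (L.X t2 y) * L.j t2 y -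
      |L.q t1 (L.X t1 y) - κ| * ζ (L.X t1 y) * L.j t1 y =
      ∫ t in t1..t2, g t (L.X t y) * L.j t y := fun y => by
    have hsub : Icc t1 t2 ⊆ Icc 0 L.T := Icc_subset_Icc h1 h2
    have := hA (fun t => L.q0 y - κ * L.j t y) (fun t => -(κ * (L.j t y * w t (L.X t y))))
      (fun t => ζ (L.X t y)) (fun t => deriv ζ (L.X t y) * L.v t (L.X t y))
      (|κ| * (J * (P.bm M * (P.k0 * P.N M))) + A' * P.Vm M) t1 t2 h12 fun t ht =>
      ⟨(((L.j_deriv y t (hsub ht)).const_mul κ).const_sub _).mono hsub,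
        ((hζ.differentiable one_ne_zero _).hasDerivAt.comp_hasDerivWithinAt t
          (L.X_deriv y t (hsub ht))).mono hsub, by
        rw [abs_neg, abs_mul, abs_mul]
        refine le_add_of_le_of_nonneg ?_ (by positivity)
        gcongr
        exacts [hj t y, hwb t _], by
        rw [abs_mul]
        refine le_add_of_nonneg_of_le (by positivity) ?_
        gcongr
        exacts [hAb' _, LF.v_abs t _]⟩
    simp only [ea, abs_mul, sign_mul (L.j_pos _ y), abs_of_pos (L.j_pos _ y)] at this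
    refine Eq.trans (by ring) (this.trans (congrArg (fun f => ∫ t in t1..t2, f t)
      (funext fun t => ?_)))
    rw [hg]
    ring
  have m1 : t1 ∈ Icc 0 L.T := ⟨h1, h12.trans h2⟩
  have m2 : t2 ∈ Icc 0 L.T := ⟨h1.trans h12, h2⟩
  rw [e0 t1 m1, e0 t2 m2, ← sub_eq_iff_eq_add', ← intervalIntegral.integral_sub (i0 t2) (i0 t1)]
  simp only [e1]
  rw [swap (h := fun t y => g t (L.X t y) * L.j t y)
    ((hgm.comp (measurable_fst.prodMk L.X_cont.measurable)).mul L.j_meas) (fun t y => by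
      rw [abs_mul]
      exact mul_le_mul (hgb t _) (hj t y) (abs_nonneg _) ((abs_nonneg _).trans (hgb 0 0))) h12 hy]
  refine intervalIntegral.integral_congr fun t ht => ?_
  rw [uIcc_of_le h12] at ht
  exact (cv t ⟨h1.trans ht.1, ht.2.trans h2⟩ (g t) hgm.of_uncurry_left ⟨_, hgb t⟩ fun x hx => by
    simp only [hg, hR1 x ((le_max_left _ _).trans hx), hR2 x ((le_max_right _ _).trans hx), mul_zero,
      add_zero]).symm

end MP34a893.E

end MrgPart1

-- ======== part 2: formerly Pool.Agent.MP_34a893_an.E.Dis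
section MrgPart2

/-! Exponential kernel: the dissipation bound. -/

open MeasureTheory Set Filter Topology

namespace MP34a893.E

namespace Dis

variable {P : Par} {M : ℝ} (L : Lag P M)

/-- the source of the balance law of `u` -/
noncomputable def w (t x : ℝ) : ℝ := L.u t x * (P.b (L.Z t x) * (P.k0 * L.u t x - L.G t x))

theorem Zc : Continuous (Function.uncurry L.Z) := L.Z_cont

theorem Gc : Continuous (Function.uncurry L.G) := L.G_cont

theorem w_meas : Measurable (Function.uncurry (w L)) :=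
  L.u_meas.mul ((P.hb.comp (Zc L)).measurable.mul ((L.u_meas.const_mul _).sub (Gc L).measurable))

variable {L}

theorem al_abs (hP : P.Facts M) (hL : L.Facts) (t x : ℝ) :
    |L.G t x - P.k0 * L.u t x| ≤ P.k0 * P.N M := by
  have := mul_nonneg hP.k0_pos.le (hL.u_nonneg t x)
  have := mul_le_mul_of_nonneg_left (L.u_le t x) hP.k0_pos.le
  have := hL.G_mem t x
  rw [abs_le]
  constructor <;> linarith [this.1, this.2]

theorem b_abs (hP : P.Facts M) (hL : L.Facts) (t x : ℝ) : |P.b (L.Z t x)| ≤ P.bm M :=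
  (abs_of_nonneg (P.hb0 _)).trans_le (hP.b_le _ (hL.Z_mem t x))

theorem u_abs (hL : L.Facts) (t x : ℝ) : |L.u t x| ≤ P.N M :=
  (abs_of_nonneg (hL.u_nonneg t x)).trans_le (L.u_le t x)

theorem w_abs (hP : P.Facts M) (hL : L.Facts) (t x : ℝ) :
    |w L t x| ≤ P.N M * (P.bm M * (P.k0 * P.N M)) := by
  rw [w, abs_mul, abs_mul, abs_sub_comm]
  have := hP.bm_nonneg
  gcongr
  exacts [hP.N_pos.le, u_abs hL t x, b_abs hP hL t x, al_abs hP hL t x]

theorem j_abs (hP : P.Facts M) (hL : L.Facts) (t y : ℝ) :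
    |L.j t y| ≤ Real.exp (P.C0 M * L.T) := by
  have h : max 0 (min t L.T) ∈ Icc 0 L.T := ⟨le_max_left _ _, max_le L.hT (min_le_right _ _)⟩
  have c : 0 ≤ P.C0 M := mul_nonneg (mul_nonneg hP.bm_nonneg hP.k0_pos.le) hP.N_pos.le
  rw [abs_of_pos (L.j_pos t y), L.j_clamp]
  refine (hL.j_ratio y _ h 0 ⟨le_rfl, L.hT⟩).trans ?_
  rw [L.j_zero, mul_one, sub_zero, abs_of_nonneg h.1]
  exact Real.exp_le_exp.2 (mul_le_mul_of_nonneg_left h.2 c)

theorem time (hL : L.Facts) (y : ℝ) {t : ℝ} (ht : t ∈ Icc 0 L.T) :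
    L.U t y * L.j t y - L.U 0 y * L.j 0 y =
      (1 - P.p) * ∫ τ in (0 : ℝ)..t, w L τ (L.X τ y) * L.j τ y := by
  have c : Continuous fun τ => (τ, L.X τ y) :=
    continuous_id.prodMk (L.X_cont.comp (continuous_id.prodMk continuous_const))
  have cj : ContinuousOn (fun τ => L.j τ y) (Icc 0 L.T) := fun τ h =>
    (L.j_deriv y τ h).continuousWithinAt
  rw [← intervalIntegral.integral_const_mul]
  refine LF.ftc (f := fun τ => L.U τ y * L.j τ y) (fun τ h => ?_) ?_ ⟨le_rfl, L.hT⟩ ht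
  · refine ((hL.U_deriv y τ h).mul (L.j_deriv y τ h)).congr_deriv ?_
    simp only [w, Lag.rate, Lag.U, Lag.Z, Lag.G]
    ring
  · exact continuousOn_const.mul (((hL.U_cont y).mul ((P.hb.comp ((Zc L).comp c)).continuousOn.mul
      ((continuousOn_const.mul (hL.U_cont y)).sub ((Gc L).comp c).continuousOn))).mul cj)

theorem space (hP : P.Facts M) (hL : L.Facts) (hC : ChainS) (hE : Ex L) (t : ℝ) {S x1 x2 : ℝ}
    (hS : 0 ≤ S) (h1 : x1 ≤ -S) (h2 : S ≤ x2) :
    P.k0 * ∫ x in (-S)..S, P.b (L.Z t x) * (L.u t x - L.Z t x) ^ 2 ≤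
      (∫ x in x1..x2, w L t x) + P.N M * P.bm M * P.N M := by
  have N0 := hP.N_pos.le
  have b0 := hP.bm_nonneg
  have cθ : Continuous fun z => z * P.b z := continuous_id.mul P.hb
  have mZ : Measurable (L.Z t) := (Zc L).measurable.of_uncurry_left
  have mu : Measurable (L.u t) := L.u_meas.of_uncurry_left
  have mα : Measurable fun x => L.G t x - P.k0 * L.u t x :=
    (Gc L).measurable.of_uncurry_left.sub (mu.const_mul _)
  have e := hC (L.Z t) _ (fun z => ∫ s in (0 : ℝ)..z, s * P.b s) _ _ mα (al_abs hP hL t)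
    (hL.Z_sub t) (fun z => (cθ.integral_hasStrictDerivAt 0 z).hasDerivAt) cθ x1 x2
  have θb : ∀ z ∈ Icc 0 (P.N M), |z * P.b z| ≤ P.N M * P.bm M := fun z hz => by
    rw [abs_of_nonneg (mul_nonneg hz.1 (P.hb0 z))]
    exact mul_le_mul hz.2 (hP.b_le z hz) (P.hb0 z) N0
  have a1 : 0 ≤ ∫ s in (0 : ℝ)..L.Z t x1, s * P.b s :=
    intervalIntegral.integral_nonneg (hL.Z_mem t x1).1 fun s hs => mul_nonneg hs.1 (P.hb0 s)
  have a2 : ∫ s in (0 : ℝ)..L.Z t x2, s * P.b s ≤ P.N M * P.bm M * P.N M := by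
    have z := hL.Z_mem t x2
    refine (Real.le_norm_self _).trans ((intervalIntegral.norm_integral_le_of_norm_le_const
      (C := P.N M * P.bm M) fun s hs => θb s ?_).trans ?_)
    · rw [uIoc_of_le z.1] at hs
      exact ⟨hs.1.le, hs.2.trans z.2⟩
    · rw [sub_zero, abs_of_nonneg z.1]
      exact mul_le_mul_of_nonneg_left z.2 (by positivity)
  have i1 := LF.intInt (w_meas L).of_uncurry_left (w_abs hP hL t) x1 x2
  have i2 : IntervalIntegrable (fun x => L.Z t x * P.b (L.Z t x) * (L.G t x - P.k0 * L.u t x))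
      volume x1 x2 :=
    LF.intInt (C := P.N M * P.bm M * (P.k0 * P.N M)) ((cθ.measurable.comp mZ).mul mα) (fun x =>
      (abs_mul _ _).trans_le (mul_le_mul (θb _ (hL.Z_mem t x)) (al_abs hP hL t x) (abs_nonneg _)
        (by positivity))) _ _
  have e2 : ∀ x, w L t x + L.Z t x * P.b (L.Z t x) * (L.G t x - P.k0 * L.u t x) =
      P.k0 * (P.b (L.Z t x) * (L.u t x - L.Z t x) ^ 2) := fun x => by
    rw [w, hE]
    ring
  have i3 := i1.add i2
  have e3 := intervalIntegral.integral_add i1 i2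
  simp only [e2] at i3 e3
  have := intervalIntegral.integral_mono_interval h1 (neg_le_self hS) h2
    (Eventually.of_forall fun x => mul_nonneg hP.k0_pos.le (mul_nonneg (P.hb0 _) (sq_nonneg _))) i3
  rw [intervalIntegral.integral_const_mul] at this
  linarith

end Dis

open Dis in
theorem disS : ParFactsS → LagFactsS → ChainS → DisS := by
  intro hp hl hC P M hM
  have hP := hp P M hM
  have N0 := hP.N_pos.le
  have b0 := hP.bm_nonneg
  have k0 := hP.k0_pos
  have p1 := sub_pos.2 P.hp1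
  have V0 : 0 ≤ P.Vm M := add_nonneg (abs_nonneg _) (mul_nonneg b0 N0)
  refine ⟨(P.N M * (2 + 4 * P.Vm M) / (1 - P.p) + P.N M * P.bm M * P.N M) / P.k0, by positivity,
    fun L S T' hE hS h0 hT => ?_⟩
  have hL := hl P M L hM
  have hX : ∀ y, ∀ t ∈ Icc 0 T', |L.X t y - y| ≤ P.Vm M * T' := fun y t ht => by
    have := hL.X_lip y t ⟨ht.1, ht.2.trans hT⟩ 0 ⟨le_rfl, L.hT⟩
    rw [L.X_zero, sub_zero, abs_of_nonneg ht.1] at this
    exact this.trans (mul_le_mul_of_nonneg_left ht.2 V0)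
  obtain ⟨a, ha⟩ : ∃ a, a = S + P.Vm M * T' := ⟨_, rfl⟩
  have a0 : -a ≤ a := neg_le_self (by rw [ha]; positivity)
  have mF : Measurable (Function.uncurry fun t y => w L t (L.X t y) * L.j t y) :=
    ((w_meas L).comp (measurable_fst.prodMk L.X_cont.measurable)).mul L.j_meas
  have iF : Integrable (Function.uncurry fun t y => w L t (L.X t y) * L.j t y)
      ((volume.restrict (Ioc 0 T')).prod (volume.restrict (Ioc (-a) a))) :=
    .of_bound mF.aestronglyMeasurable
      (P.N M * (P.bm M * (P.k0 * P.N M)) * Real.exp (P.C0 M * L.T)) (Eventually.of_forall fun z =>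
        (abs_mul _ _).trans_le (mul_le_mul (w_abs hP hL _ _) (j_abs hP hL _ _) (abs_nonneg _)
          (by positivity)))
  have iL : Integrable (fun t => ∫ y in Ioc (-a) a, w L t (L.X t y) * L.j t y)
      (volume.restrict (Ioc 0 T')) := iF.integral_prod_left
  have s1 : (1 - P.p) * ∫ t in Ioc 0 T', ∫ y in Ioc (-a) a, w L t (L.X t y) * L.j t y ≤
      P.N M * (2 * S + 4 * (P.Vm M * T')) := by
    have mu : Measurable (L.u T') := L.u_meas.of_uncurry_left
    have i1 : IntervalIntegrable (fun y => L.u T' (L.X T' y) * L.j T' y) volume (-a) a :=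
      LF.intInt (C := P.N M * Real.exp (P.C0 M * L.T)) ((mu.comp
        L.X_cont.measurable.of_uncurry_left).mul L.j_meas.of_uncurry_left) (fun y =>
        (abs_mul _ _).trans_le (mul_le_mul (u_abs hL _ _) (j_abs hP hL _ _) (abs_nonneg _) N0)) _ _
    rw [integral_integral_swap iF, ← integral_const_mul]
    refine (integral_mono (iF.integral_prod_right.const_mul _) i1.1 fun y => ?_).trans ?_
    · have := time hL y ⟨h0, hT⟩
      rw [intervalIntegral.integral_of_le h0] at this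
      exact this.ge.trans (sub_le_self _ (mul_nonneg (hL.u_nonneg _ _) (L.j_pos _ _).le))
    · rw [← intervalIntegral.integral_of_le a0, ← hL.cov_int T' _ mu ⟨_, u_abs hL T'⟩]
      refine (le_abs_self _).trans ((LF.abs_int_le (u_abs hL T')).trans
        (mul_le_mul_of_nonneg_left ?_ N0))
      have c1 := abs_le.1 (hX a T' ⟨h0, le_rfl⟩)
      have c2 := abs_le.1 (hX (-a) T' ⟨h0, le_rfl⟩)
      rw [abs_of_nonneg (sub_nonneg.2 ((hL.X_mono T').monotone a0))]
      linarith [c1.2, c2.1]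
  have s2 : ∫ t in Ioc 0 T', P.k0 * ∫ x in (-S)..S, P.b (L.Z t x) * (L.u t x - L.Z t x) ^ 2 ≤
      ∫ t in Ioc 0 T', ((∫ y in Ioc (-a) a, w L t (L.X t y) * L.j t y) +
        P.N M * P.bm M * P.N M) := by
    refine integral_mono_of_nonneg (Eventually.of_forall fun t => mul_nonneg k0.le
      (intervalIntegral.integral_nonneg (neg_le_self hS) fun x _ =>
        mul_nonneg (P.hb0 _) (sq_nonneg _))) (iL.add (integrable_const _)) ?_
    filter_upwards [ae_restrict_mem measurableSet_Ioc] with t ht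
    have c1 := abs_le.1 (hX a t ⟨ht.1.le, ht.2⟩)
    have c2 := abs_le.1 (hX (-a) t ⟨ht.1.le, ht.2⟩)
    rw [← intervalIntegral.integral_of_le a0,
      ← hL.cov_int t _ (w_meas L).of_uncurry_left ⟨_, w_abs hP hL t⟩]
    exact space hP hL hC hE t hS (by linarith [c2.2]) (by linarith [c1.1])
  rw [integral_add iL (integrable_const _), integral_const_mul,
    ← intervalIntegral.integral_of_le h0, integral_const, measureReal_restrict_apply_univ,
    Real.volume_real_Ioc_of_le h0, sub_zero, smul_eq_mul] at s2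
  rw [div_mul_eq_mul_div, le_div_iff₀' k0]
  refine s2.trans ?_
  rw [add_mul, div_mul_eq_mul_div]
  refine add_le_add (((le_div_iff₀' p1).2 s1).trans (div_le_div_of_nonneg_right ?_ p1.le)) ?_
  · rw [mul_assoc]
    refine mul_le_mul_of_nonneg_left ?_ N0
    nlinarith [mul_nonneg V0 hS]
  · rw [mul_comm T']
    exact mul_le_mul_of_nonneg_left (by linarith) (by positivity)

end MP34a893.E

end MrgPart2

-- ======== part 3: formerly Pool.Agent.MP_34a893_an.E.Err
section MrgPart3

/-! Exponential kernel: the error in the flux is small. -/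

open MeasureTheory Set Filter Topology

namespace MP34a893.E

namespace Err

theorem intInt {f : ℝ → ℝ} {C : ℝ} (hf : Measurable f) (h : ∀ x, |f x| ≤ C) (a b : ℝ) :
    IntervalIntegrable f volume a b :=
  (intervalIntegrable_const (c := C)).mono_fun' hf.aestronglyMeasurable
    (Eventually.of_forall fun x => h x)

theorem mono {f g : ℝ → ℝ} {a b : ℝ} (hab : a ≤ b) (h0 : ∀ x, 0 ≤ f x)
    (hg : IntervalIntegrable g volume a b) (h : ∀ x, f x ≤ g x) :
    ∫ x in a..b, f x ≤ ∫ x in a..b, g x := by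
  rw [intervalIntegral.integral_of_le hab, intervalIntegral.integral_of_le hab]
  exact integral_mono_of_nonneg (Eventually.of_forall h0) hg.1 (Eventually.of_forall h)

/-- the cutoff -/
noncomputable def th (N δ z : ℝ) : ℝ := max (-1) (min 1 ((N - 2 * z) / (N - 2 * δ)))

theorem th_cont (N δ : ℝ) : Continuous (th N δ) := by
  unfold th
  fun_prop

theorem th_abs (N δ z : ℝ) : |th N δ z| ≤ 1 :=
  abs_le.2 ⟨le_max_left _ _, max_le (by norm_num) (min_le_left _ _)⟩

theorem point {N δ b0 β u z : ℝ} (hδ : 0 < δ) (hN : 2 * δ < N) (h0 : 0 < b0) (hβ : 0 ≤ β)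
    (hb : z ∈ Icc δ (N - δ) → b0 ≤ β) (hu : u ∈ Icc 0 N) :
    |z - u| ≤ th N δ z * (u - z) + 4 * δ + 2 / (b0 * δ) * (β * (u - z) ^ 2) := by
  have p : 0 ≤ 2 / (b0 * δ) * (β * (u - z) ^ 2) := by positivity
  have d : 0 < N - 2 * δ := by linarith
  by_cases h1 : z < δ
  · have : th N δ z = 1 := by
      rw [th, min_eq_left ((one_le_div d).2 (by linarith)), max_eq_right (by norm_num)]
    rw [this]
    exact abs_le.2 ⟨by linarith [hu.1], by linarith [hu.1]⟩
  by_cases h2 : N - δ < z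
  · have : th N δ z = -1 :=
      max_eq_left ((min_le_right _ _).trans ((div_le_iff₀ d).2 (by linarith)))
    rw [this]
    exact abs_le.2 ⟨by linarith [hu.2], by linarith [hu.2]⟩
  have h3 := hb ⟨not_lt.1 h1, not_lt.1 h2⟩
  have h4 : |th N δ z * (u - z)| ≤ |z - u| := by
    rw [abs_mul, abs_sub_comm u]
    exact mul_le_of_le_one_left (abs_nonneg _) (th_abs _ _ _)
  have h5 : 2 / δ * |z - u| ^ 2 ≤ 2 / (b0 * δ) * (β * (u - z) ^ 2) := by
    rw [sq_abs]
    calc _ = 2 / (b0 * δ) * (b0 * (u - z) ^ 2) := by field_simp; ring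
      _ ≤ _ := by gcongr
  have h6 : 2 * |z - u| ≤ 4 * δ + 2 / δ * |z - u| ^ 2 := by
    rw [div_mul_eq_mul_div, ← sub_le_iff_le_add', le_div_iff₀ hδ]
    nlinarith [sq_nonneg (|z - u| - δ), sq_nonneg (|z - u|), sq_nonneg δ]
  linarith [neg_abs_le (th N δ z * (u - z))]

end Err

open Err in
theorem errS : ParFactsS → LagFactsS → ChainS → DisS → ErrS := by
  intro pf lf ch dis P M hM hb e he
  have F := pf P M hM
  obtain ⟨C, hC, hD⟩ := dis P M hM
  have hN := F.N_pos
  have hm := F.bm_nonneg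
  have hk := F.k0_pos
  obtain ⟨δ, hδ, hδ1, hδ2⟩ : ∃ δ, 0 < δ ∧ 2 * δ < P.N M ∧ 16 * (P.bm M * δ) ≤ e := by
    refine ⟨min (P.N M / 4) (e / (16 * (P.bm M + 1))), by positivity,
      by linarith [min_le_left (P.N M / 4) (e / (16 * (P.bm M + 1)))], ?_⟩
    have h1 := (le_div_iff₀ (by positivity)).1 (min_le_right (P.N M / 4) (e / (16 * (P.bm M + 1))))
    have h2 : 0 < min (P.N M / 4) (e / (16 * (P.bm M + 1))) := by positivity
    nlinarith
  obtain ⟨z0, hz0, hz1⟩ := isCompact_Icc.exists_isMinOn (nonempty_Icc.2 (by linarith : δ ≤ P.N M - δ))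
    P.hb.continuousOn
  have h0 : 0 < P.b z0 := hb z0 ⟨by linarith [hz0.1], by linarith [hz0.2]⟩
  set c := 2 / (P.b z0 * δ) with hc
  have c0 : 0 ≤ c := by positivity
  set A := P.bm M * (P.N M / P.k0 + 3 * (c * C)) with hA
  refine ⟨max 1 (2 * A / e), by positivity, fun L S T' hE hS hT hTS hTL => ?_⟩
  have G := lf P M L hM
  have hS1 : 1 ≤ S := (le_max_left _ _).trans hS
  have hS2 : 2 * A ≤ S * e := (div_le_iff₀ he).1 ((le_max_right _ _).trans hS)
  have hSS : -S ≤ S := by linarith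
  have um : ∀ t x, L.u t x ∈ Icc 0 (P.N M) := fun t x => ⟨G.u_nonneg t x, L.u_le t x⟩
  have d1 : ∀ t x, |L.u t x - L.Z t x| ≤ P.N M := fun t x =>
    abs_le.2 ⟨by linarith [(um t x).1, (G.Z_mem t x).2], by linarith [(um t x).2, (G.Z_mem t x).1]⟩
  have mZ : Measurable (Function.uncurry L.Z) := L.Z_cont.measurable
  have mw : Measurable fun p : ℝ × ℝ => L.u p.1 p.2 - L.Z p.1 p.2 := L.u_meas.sub mZ
  have mD : Measurable fun p : ℝ × ℝ => P.b (L.Z p.1 p.2) * (L.u p.1 p.2 - L.Z p.1 p.2) ^ 2 :=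
    (P.hb.measurable.comp mZ).mul (mw.pow_const 2)
  have bD : ∀ t x, |P.b (L.Z t x) * (L.u t x - L.Z t x) ^ 2| ≤ P.bm M * P.N M ^ 2 := fun t x => by
    rw [abs_mul, abs_of_nonneg (P.hb0 _), abs_pow]
    exact mul_le_mul (F.b_le _ (G.Z_mem t x)) (pow_le_pow_left₀ (abs_nonneg _) (d1 t x) 2)
      (by positivity) hm
  have bT : ∀ t x, |th (P.N M) δ (L.Z t x) * (L.u t x - L.Z t x)| ≤ 1 * P.N M := fun t x => by
    rw [abs_mul]
    exact mul_le_mul (th_abs _ _ _) (d1 t x) (abs_nonneg _) zero_le_one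
  have hθ := th_cont (P.N M) δ
  have k1 : ∀ t, ∫ x in (-S)..S, th (P.N M) δ (L.Z t x) * (L.u t x - L.Z t x) ≤ P.N M / P.k0 := by
    intro t
    have e1 : ∀ x, L.G t x - P.k0 * L.u t x = -P.k0 * (L.u t x - L.Z t x) := fun x => by
      rw [hE t x]; ring
    have h1 := ch (L.Z t) (fun x => -P.k0 * (L.u t x - L.Z t x))
      (fun z => ∫ y in (0 : ℝ)..z, th (P.N M) δ y) (th (P.N M) δ) (P.k0 * P.N M)
      ((mw.comp measurable_prodMk_left).const_mul _)
      (fun x => by
        rw [abs_mul, abs_neg, abs_of_pos hk]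
        exact mul_le_mul_of_nonneg_left (d1 t x) hk.le)
      (fun x1 x2 => by simpa only [e1] using G.Z_sub t x1 x2)
      (fun z => (hθ.integral_hasStrictDerivAt 0 z).hasDerivAt) hθ (-S) S
    simp only [mul_left_comm _ (-P.k0), intervalIntegral.integral_const_mul] at h1
    rw [intervalIntegral.integral_interval_sub_left (hθ.intervalIntegrable _ _)
      (hθ.intervalIntegrable _ _)] at h1
    have h2 := intervalIntegral.norm_integral_le_of_norm_le_const (a := L.Z t (-S)) (b := L.Z t S)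
      (f := th (P.N M) δ) (C := 1) fun y _ => th_abs _ _ _
    have h3 : |L.Z t S - L.Z t (-S)| ≤ P.N M := abs_le.2
      ⟨by linarith [(G.Z_mem t S).1, (G.Z_mem t (-S)).2],
        by linarith [(G.Z_mem t S).2, (G.Z_mem t (-S)).1]⟩
    rw [h1, Real.norm_eq_abs] at h2
    rw [le_div_iff₀ hk]
    linarith [(abs_le.1 h2).1]
  set D : ℝ → ℝ := fun t => ∫ x in (-S)..S, P.b (L.Z t x) * (L.u t x - L.Z t x) ^ 2 with hDd
  have k2 : ∀ t, ∫ x in (-S)..S, |L.v t x - P.Φ (L.u t x)| ≤
      P.bm M * (P.N M / P.k0 + 8 * δ * S + c * D t) := by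
    intro t
    have i1 := intInt (f := fun x => th (P.N M) δ (L.Z t x) * (L.u t x - L.Z t x))
      ((hθ.measurable.comp mZ).mul mw |>.comp (measurable_prodMk_left (x := t))) (bT t) (-S) S
    have i2 := intInt (f := fun x => P.b (L.Z t x) * (L.u t x - L.Z t x) ^ 2)
      (mD.comp (measurable_prodMk_left (x := t))) (bD t) (-S) S
    have i3 : IntervalIntegrable (fun _ : ℝ => 4 * δ) volume (-S) S := intervalIntegrable_const
    refine (mono (g := fun x => P.bm M * (th (P.N M) δ (L.Z t x) * (L.u t x - L.Z t x) + 4 * δ +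
      c * (P.b (L.Z t x) * (L.u t x - L.Z t x) ^ 2))) hSS (fun x => abs_nonneg _)
      (((i1.add i3).add (i2.const_mul c)).const_mul _) fun x => ?_).trans ?_
    · exact (F.Φ_lip _ (G.Z_mem t x) _ (um t x)).trans (mul_le_mul_of_nonneg_left
        (point hδ hδ1 h0 (P.hb0 _) (fun h => hz1 h) (um t x)) hm)
    · rw [intervalIntegral.integral_const_mul]
      refine mul_le_mul_of_nonneg_left ?_ hm
      rw [intervalIntegral.integral_add (i1.add i3) (i2.const_mul c),
        intervalIntegral.integral_add i1 i3, intervalIntegral.integral_const_mul c,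
        intervalIntegral.integral_const, smul_eq_mul]
      have := k1 t
      simp only [hDd]
      linarith
  have iD : IntervalIntegrable D volume 0 T' := by
    refine intInt (C := P.bm M * P.N M ^ 2 * |S - -S|) ?_
      (fun t => (Real.norm_eq_abs _).ge.trans
        (intervalIntegral.norm_integral_le_of_norm_le_const fun x _ => bD t x)) _ _
    simp only [intervalIntegral.integral_of_le hSS]
    exact (mD.stronglyMeasurable.integral_prod_right' (ν := volume.restrict (Ioc (-S) S))).measurable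
  have i4 : IntervalIntegrable (fun _ : ℝ => P.N M / P.k0 + 8 * δ * S) volume 0 T' :=
    intervalIntegrable_const
  refine (mono hT (fun t => intervalIntegral.integral_nonneg hSS fun x _ => abs_nonneg _)
    ((i4.add (iD.const_mul c)).const_mul _) k2).trans ?_
  rw [intervalIntegral.integral_const_mul, intervalIntegral.integral_add i4 (iD.const_mul c),
    intervalIntegral.integral_const_mul, intervalIntegral.integral_const, smul_eq_mul, sub_zero]
  have h1 : ∫ t in (0 : ℝ)..T', D t ≤ C * (3 * S) :=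
    (hD L S T' hE (by linarith) hT hTL).trans (mul_le_mul_of_nonneg_left (by linarith) hC)
  calc _ ≤ P.bm M * (S * (P.N M / P.k0 + 8 * δ * S) + c * (C * (3 * S))) := by gcongr
    _ = S * A + 8 * (P.bm M * δ) * S ^ 2 := by rw [hA]; ring
    _ ≤ _ := by nlinarith [mul_le_mul_of_nonneg_left hS2 (zero_le_one.trans hS1), sq_nonneg S]

end MP34a893.E

end MrgPart3

-- ======== part 4: formerly Pool.Agent.MP_34a893_an.E.Exp
section MrgPart4

/-! The exponential kernel and the change of scale. -/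

open MeasureTheory Set Filter Topology

namespace MP34a893.E

theorem expS (hP : ParFactsS) : ExpS := by
  intro P M l L hM hl hk t x
  have F := hP P M hM
  have h0 : P.k0 = l := by simpa [Par.k0] using hk 0 le_rfl
  have hg : ∀ᵐ s, s ∈ Ioi (0 : ℝ) → P.g s = P.k0 * P.k s := by
    have h1 := LocallyIntegrable.ae_hasDerivAt_integral P.hgi.locallyIntegrable
    filter_upwards [h1] with s hs hs0
    have d1 : HasDerivAt (fun c => P.k 0 - P.k c) (P.g s) s := by
      simpa only [F.k_sub] using hs 0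
    have d2 : HasDerivAt (fun c => P.k 0 - l * Real.exp (-(l * c)))
        (l * (l * Real.exp (-(l * s)))) s := by
      have := ((((hasDerivAt_id s).const_mul l).neg.exp).const_mul l).const_sub (P.k 0)
      exact this.congr_deriv (by simp only [id, Pi.neg_apply]; ring)
    have d3 : HasDerivAt (fun c => P.k 0 - P.k c) (l * (l * Real.exp (-(l * s)))) s :=
      d2.congr_of_eventuallyEq ((eventually_ge_nhds hs0).mono fun c hc => by simp only [hk c hc])
    rw [d1.unique d3, h0, hk s (le_of_lt hs0)]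
  unfold Lag.G Lag.Z
  rw [← integral_const_mul]
  refine setIntegral_congr_ae measurableSet_Ioi (hg.mono fun s hs hs0 => ?_)
  rw [hs hs0, mul_assoc]

theorem kerS : KerS := by
  intro p l hp hl
  have hpos : ∀ s : ℝ, 0 < l * Real.exp (-(l * s)) := fun s => mul_pos hl (Real.exp_pos _)
  have hd : ContDiff ℝ 1 fun s : ℝ => (l * Real.exp (-(l * s))) ^ (1 / p) :=
    ContDiff.rpow_const_of_ne (by fun_prop) fun s => (hpos s).ne'
  refine ⟨hd.continuous.continuousOn, hd.contDiffOn, fun a _ c _ hac => ?_,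
    fun s _ => Real.rpow_nonneg (hpos s).le _, ?_⟩
  · exact Real.rpow_le_rpow (hpos c).le (by gcongr) (by positivity)
  · have : ∀ s : ℝ, ((l * Real.exp (-(l * s))) ^ (1 / p)) ^ p = l * Real.exp (-l * s) := fun s => by
      rw [← Real.rpow_mul (hpos s).le, one_div_mul_cancel hp.ne', Real.rpow_one, neg_mul]
    simp only [this]
    rw [integral_const_mul, integral_exp_mul_Ioi (by linarith)]
    simp [hl.ne']

theorem scaS : ScaS := by
  intro T M η f q err hη h κ hκ ζ hζ hc h0 t1 t2 h1 h12 h2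
  have hd : ∀ x, deriv (fun x => ζ (η * x)) x = η * deriv ζ (η * x) := fun x => by
    have := ((hζ.differentiable one_ne_zero (η * x)).hasDerivAt.comp x
      ((hasDerivAt_id x).const_mul η)).deriv
    simpa [Function.comp_def, mul_comm] using this
  have H := h κ hκ (fun x => ζ (η * x)) (hζ.comp (by fun_prop))
    (hc.comp_homeomorph (Homeomorph.mulLeft₀ η hη.ne')) (fun x => h0 _) (t1 / η) (t2 / η)
    (by positivity) (by gcongr) (by gcongr)
  have sc : ∀ g : ℝ → ℝ → ℝ, ∫ x, g (x / η) x = η * ∫ x, g x (η * x) := fun g => by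
    have := Measure.integral_comp_div (fun x => g x (η * x)) η
    simp only [mul_div_cancel₀ _ hη.ne'] at this
    rw [this, abs_of_pos hη, smul_eq_mul]
  have e1 := fun t => sc fun a x => |q t a - κ| * ζ x
  have e2 : ∀ t, ∫ x, (Fk f (q t (x / η)) κ * deriv ζ x + err t (x / η) * |deriv ζ x|) =
      ∫ x, (Fk f (q t x) κ * deriv (fun x => ζ (η * x)) x +
        err t x * |deriv (fun x => ζ (η * x)) x|) := fun t => by
    rw [sc fun a x => Fk f (q t a) κ * deriv ζ x + err t a * |deriv ζ x|, ← integral_const_mul]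
    refine congrArg _ (funext fun x => ?_)
    rw [hd, abs_mul, abs_of_pos hη]
    ring
  beta_reduce
  rw [e1, e1]
  simp only [e2]
  rw [intervalIntegral.integral_comp_div (fun t => ∫ x, (Fk f (q t x) κ *
    deriv (fun x => ζ (η * x)) x + err t x * |deriv (fun x => ζ (η * x)) x|)) hη.ne', smul_eq_mul,
    ← mul_add]
  exact mul_le_mul_of_nonneg_left H hη.le

end MP34a893.E

end MrgPart4

-- ======== part 5: formerly Pool.Agent.MP_34a893_an.E.Loc
section MrgPart5

/-! The entropy solution satisfies the Kruzhkov inequalities between any two times. -/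

open MeasureTheory Set Filter Topology

namespace MP34a893.E

namespace Loc

open PotAux

variable {T C C' : ℝ} {η ψ : ℝ → ℝ → ℝ} {ζ χ : ℝ → ℝ}

lemma contL1_comp {g : ℝ → ℝ} (hm : Measurable (Function.uncurry η))
    (hb : ∀ t ∈ Icc 0 T, ∀ᵐ x, |η t x| ≤ C) (hc : ContL1 T η)
    (hg : ∀ a b, |g a - g b| ≤ |a - b|) : ContL1 T fun t x => g (η t x) := fun a b t0 ht0 => by
  refine squeeze_zero' (.of_forall fun _ => integral_nonneg fun _ => abs_nonneg _)
    (eventually_mem_nhdsWithin.mono fun t ht => ?_) (hc a b t0 ht0)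
  exact integral_mono_of_nonneg (.of_forall fun _ => abs_nonneg _)
    ((Cone.loc hm.of_uncurry_left (hb t ht) a b).sub
      (Cone.loc hm.of_uncurry_left (hb t0 ht0) a b)).abs (.of_forall fun x => hg _ _)

lemma sub_prod (hη : Measurable (Function.uncurry η)) (hψ : Measurable (Function.uncurry ψ))
    (bη : ∀ t ∈ Icc 0 T, ∀ᵐ x, |η t x| ≤ C) (bψ : ∀ t ∈ Icc 0 T, ∀ᵐ x, |ψ t x| ≤ C')
    (hS : SubId T η ψ) (hζ : ContDiff ℝ 1 ζ) (sζ : HasCompactSupport ζ) (pζ : ∀ x, 0 ≤ ζ x)
    (hχ : ContDiff ℝ 1 χ) (sχ : HasCompactSupport χ) (hT : tsupport χ ⊆ Ioo 0 T)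
    (pχ : ∀ t, 0 ≤ χ t) :
    0 ≤ ∫ t in Ioo 0 T, (deriv χ t * (∫ x, ζ x * η t x) + χ t * ∫ x, deriv ζ x * ψ t x) := by
  have hd : ∀ z : ℝ × ℝ, HasFDerivAt (fun z : ℝ × ℝ => χ z.1 * ζ z.2) _ z := fun z =>
    ((hχ.differentiable one_ne_zero z.1).hasDerivAt.comp_hasFDerivAt z
      (hasFDerivAt_fst (𝕜 := ℝ) (p := z))).mul
      ((hζ.differentiable one_ne_zero z.2).hasDerivAt.comp_hasFDerivAt z
        (hasFDerivAt_snd (𝕜 := ℝ) (p := z)))
  have h := hS (fun z => χ z.1 * ζ z.2) ((hχ.comp contDiff_fst).mul (hζ.comp contDiff_snd))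
    (HasCompactSupport.intro (sχ.isCompact.prod sζ.isCompact) fun z hz => by
      rw [mem_prod, not_and_or] at hz
      rcases hz with hz | hz <;> simp [image_eq_zero_of_notMem_tsupport hz])
    ((closure_minimal (t := tsupport χ ×ˢ univ) (fun z hz => ⟨subset_tsupport _
      (left_ne_zero_of_mul hz), trivial⟩) ((isClosed_tsupport _).prod isClosed_univ)).trans
      (prod_mono_left hT)) fun z => mul_nonneg (pχ _) (pζ _)
  have iζ := hζ.continuous.integrable_of_hasCompactSupport (μ := volume) sζ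
  have iζ' := (hζ.continuous_deriv le_rfl).integrable_of_hasCompactSupport (μ := volume) sζ.deriv
  obtain ⟨K, hK⟩ := hχ.continuous.bounded_above_of_compact_support sχ
  obtain ⟨K', hK'⟩ := (hχ.continuous_deriv le_rfl).bounded_above_of_compact_support sχ.deriv
  have i1 := (int_prod hη bη measurableSet_Ioo Ioo_subset_Icc_self iζ).bdd_mul (c := K')
    (f := fun z => deriv χ z.1)
    ((hχ.continuous_deriv le_rfl).comp continuous_fst).aestronglyMeasurable
    (ae_of_all _ fun z => hK' _)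
  have i2 := (int_prod hψ bψ measurableSet_Ioo Ioo_subset_Icc_self iζ').bdd_mul (c := K)
    (f := fun z => χ z.1) (hχ.continuous.comp continuous_fst).aestronglyMeasurable
    (ae_of_all _ fun z => hK _)
  have e : ∀ z : ℝ × ℝ, η z.1 z.2 * fderiv ℝ (fun z : ℝ × ℝ => χ z.1 * ζ z.2) z (1, 0) +
      ψ z.1 z.2 * fderiv ℝ (fun z : ℝ × ℝ => χ z.1 * ζ z.2) z (0, 1) =
      deriv χ z.1 * (ζ z.2 * η z.1 z.2) + χ z.1 * (deriv ζ z.2 * ψ z.1 z.2) := fun z => by
    rw [(hd z).fderiv]; simp; ring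
  simp only [e] at h
  have i3 : Integrable (fun z : ℝ × ℝ => deriv χ z.1 * (ζ z.2 * η z.1 z.2) +
      χ z.1 * (deriv ζ z.2 * ψ z.1 z.2)) _ := i1.add i2
  rw [Measure.volume_eq_prod, ← Measure.restrict_prod_eq_prod_univ, integral_prod _ i3] at h
  refine h.trans_eq (setIntegral_congr_fun measurableSet_Ioo fun t ht => ?_)
  have ht' := Ioo_subset_Icc_self ht
  dsimp only
  rw [integral_add ((int_slice hη bη iζ ht').const_mul _) ((int_slice hψ bψ iζ' ht').const_mul _),
    integral_const_mul, integral_const_mul]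

/-- a distributional inequality between two times -/
lemma two (hT : 0 < T) (hη : Measurable (Function.uncurry η))
    (hψ : Measurable (Function.uncurry ψ)) (bη : ∀ t ∈ Icc 0 T, ∀ᵐ x, |η t x| ≤ C)
    (bψ : ∀ t ∈ Icc 0 T, ∀ᵐ x, |ψ t x| ≤ C') (hc : ContL1 T η) (hS : SubId T η ψ)
    (hζ : ContDiff ℝ 1 ζ) (sζ : HasCompactSupport ζ) (pζ : ∀ x, 0 ≤ ζ x) {t1 t2 : ℝ}
    (h1 : 0 ≤ t1) (h12 : t1 ≤ t2) (h2 : t2 ≤ T) :
    ∫ x, ζ x * η t2 x ≤ (∫ x, ζ x * η t1 x) + ∫ t in t1..t2, ∫ x, deriv ζ x * ψ t x := by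
  have iζ' := (hζ.continuous_deriv le_rfl).integrable_of_hasCompactSupport (μ := volume) sζ.deriv
  have h0 : (0 : ℝ) ∈ Icc 0 T := left_mem_Icc.2 hT.le
  have iB := int_time hψ bψ iζ' h0 (right_mem_Icc.2 hT.le)
  have cA := cont_pair hη bη hc hζ.continuous sζ
  have cH := intervalIntegral.continuousOn_primitive_interval' iB left_mem_uIcc
  rw [uIcc_of_le hT.le] at cH
  have e1 := intervalIntegral.integral_interval_sub_left
    (int_time hψ bψ iζ' h0 ⟨h1.trans h12, h2⟩) (int_time hψ bψ iζ' h0 ⟨h1, h12.trans h2⟩)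
  have key := Cone.anti (cA.sub cH) (fun χ a b hχ ha hb hχ0 hχ1 => by
    have h := sub_prod hη hψ bη bψ hS hζ sζ pζ hχ (.intro isCompact_Icc hχ0)
      ((closure_minimal (Function.support_subset_iff'.2 hχ0) isClosed_Icc).trans
        (Icc_subset_Ioo ha hb)) hχ1
    have cχ := (hχ.continuous_deriv le_rfl).continuousOn (s := uIcc 0 T)
    rw [← uIcc_of_le hT.le] at cA cH
    have i1 := (cχ.fun_mul cA).intervalIntegrable (μ := volume)
    have i2 := iB.continuousOn_mul hχ.continuous.continuousOn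
    have i3 := (cχ.fun_mul cH).intervalIntegrable (μ := volume)
    rw [← integral_Ioc_eq_integral_Ioo, ← intervalIntegral.integral_of_le hT.le] at h ⊢
    rw [intervalIntegral.integral_add i1 i2, ibp iB left_mem_uIcc hχ,
      hχ0 T fun e => absurd e.2 (not_le.2 hb), hχ0 0 fun e => absurd e.1 (not_le.2 ha)] at h
    simp only [Pi.sub_apply, mul_sub]
    rw [intervalIntegral.integral_sub i1 i3]
    linarith) h1 h12 h2
  simp only [Pi.sub_apply] at key
  linarith

lemma fk_eq {f g : ℝ → ℝ} {a κ : ℝ} (ha : f a = g a) (hκ : f κ = g κ) :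
    Fk f a κ = Real.sign (a - κ) * (g a - g κ) := by
  unfold Fk
  rcases lt_trichotomy a κ with e | e | e
  · rw [max_eq_right e.le, min_eq_left e.le, Real.sign_of_neg (sub_neg.2 e), ha, hκ]; ring
  · simp [e]
  · rw [max_eq_left e.le, min_eq_right e.le, Real.sign_of_pos (sub_pos.2 e), ha, hκ]; ring

lemma abs_sign (a : ℝ) : |Real.sign a| ≤ 1 := by
  rcases Real.sign_apply_eq a with e | e | e <;> simp [e]

end Loc

open Loc in
theorem locS : LocS := by
  intro T M V q0 f q hT hM hV ⟨⟨hm, B, hB⟩, hc, _, he⟩ hq hf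
  have hcl : ∀ t ∈ Icc 0 T, ∀ᵐ x, max 0 (min (q t x) M) = q t x ∧ q t x ∈ Icc 0 M :=
    fun t ht => (hq t ht).mono fun x h => ⟨by rw [min_eq_left h.2, max_eq_right h.1], h⟩
  refine ⟨⟨measurable_const.max (Measurable.min hm measurable_const),
    fun t x => ⟨le_max_left _ _, max_le hM.le (min_le_right _ _)⟩,
    contL1_comp (g := fun a => max 0 (min a M)) hm hB hc fun a b => ?_⟩, ?_⟩
  · refine (abs_max_sub_max_le_max _ _ _ _).trans (max_le (by simp) ?_)
    exact (abs_min_sub_min_le_max _ _ _ _).trans (max_le le_rfl (by simp))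
  intro κ hκ ζ hζ sζ pζ t1 t2 h1 h12 h2
  have hsg : Measurable Real.sign :=
    .ite measurableSet_Iio measurable_const (.ite measurableSet_Ioi measurable_const measurable_const)
  have hF : Measurable fun z : ℝ × ℝ => V (q z.1 z.2) * q z.1 z.2 :=
    (hV.continuous.measurable.comp hm).mul hm
  have m1 : Measurable fun z : ℝ × ℝ => q z.1 z.2 - κ := Measurable.sub_const hm κ
  obtain ⟨K, hK⟩ := (isCompact_Icc (a := 0) (b := M)).exists_bound_of_continuousOn
    (f := fun a => V a * a - V κ * κ) ((hV.continuous.mul continuous_id).sub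
      continuous_const).continuousOn
  have key := two (η := fun t x => |q t x - κ|) (C := B + |κ|) (C' := K)
    (ψ := fun t x => Real.sign (q t x - κ) * (V (q t x) * q t x - V κ * κ)) hT m1.abs
    ((hsg.comp m1).mul (hF.sub_const _))
    (fun t ht => (hB t ht).mono fun x h => by rw [abs_abs]; linarith [abs_sub (q t x) κ])
    (fun t ht => (hq t ht).mono fun x h => by
      rw [abs_mul]
      exact (mul_le_of_le_one_left (abs_nonneg _) (abs_sign _)).trans (hK _ h))
    (contL1_comp (g := fun a => |a - κ|) hm hB hc fun a b => by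
      simpa using abs_abs_sub_abs_le_abs_sub (a - κ) (b - κ))
    (he κ) hζ sζ pζ h1 h12 h2
  have e1 : ∀ t ∈ Icc 0 T, ∫ x, |max 0 (min (q t x) M) - κ| * ζ x = ∫ x, ζ x * |q t x - κ| :=
    fun t ht => integral_congr_ae ((hcl t ht).mono fun x h => by
      dsimp only
      rw [h.1, mul_comm])
  rw [e1 t2 ⟨h1.trans h12, h2⟩, e1 t1 ⟨h1, h12.trans h2⟩]
  refine key.trans_eq (congrArg _ (intervalIntegral.integral_congr fun t ht => ?_))
  rw [uIcc_of_le h12] at ht
  refine integral_congr_ae ((hcl t ⟨h1.trans ht.1, ht.2.trans h2⟩).mono fun x h => ?_)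
  dsimp only
  rw [h.1, fk_eq (g := fun a => V a * a) (hf _ h.2) (hf _ hκ)]
  ring

end MP34a893.E

end MrgPart5

-- ======== part 6: formerly Pool.Agent.MP_34a893_an.E.Mod
section MrgPart6

/-! The doubled distance is close to the distance when the kernel is narrow. -/

open MeasureTheory Set Filter Topology

namespace MP34a893.E

namespace Mod

theorem ii {w : ℝ → ℝ} {M : ℝ} (hm : Measurable w) (hb : ∀ x, w x ∈ Icc 0 M) (a b : ℝ) :
    IntervalIntegrable w volume a b :=
  Block.ii hm (Eventually.of_forall hb) a b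

/-- translates of functions near a continuous function -/
theorem near {g : ℝ → ℝ} (hg : Continuous g) {R δ : ℝ} (hR : 0 ≤ R) (hδ : 0 < δ) :
    ∃ ε0, 0 < ε0 ∧ ε0 ≤ 1 ∧ ∀ (M : ℝ) (w : ℝ → ℝ), Measurable w → (∀ x, w x ∈ Icc 0 M) →
      ∫ x in (-(R + 1))..(R + 1), |w x - g x| ≤ δ → ∀ h, |h| ≤ ε0 →
        ∫ x in (-R)..R, |w (x - h) - w x| ≤ 3 * δ := by
  have uc := (isCompact_Icc (a := -(R + 1)) (b := R + 1)).uniformContinuousOn_of_continuous
    hg.continuousOn
  obtain ⟨η, η0, hη⟩ := Metric.uniformContinuousOn_iff_le.1 uc (δ / (2 * R + 1)) (by positivity)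
  refine ⟨min η 1, by positivity, min_le_right _ _, fun M w hm hb hw h hh => ?_⟩
  have h1 : |h| ≤ 1 := hh.trans (min_le_right _ _)
  have h2 : |h| ≤ η := hh.trans (min_le_left _ _)
  obtain ⟨h3, h4⟩ := abs_le.1 h1
  have hm' : Measurable fun x => w (x - h) := hm.comp (measurable_id.sub_const h)
  have hg' : Continuous fun x => g (x - h) := by fun_prop
  have iw := ii hm hb
  have iw' := ii hm' (fun x => hb _) (-R) R
  have ig := fun a b => hg.intervalIntegrable (μ := volume) a b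
  have ig' := hg'.intervalIntegrable (μ := volume) (-R) R
  have big : ∀ a b, -(R + 1) ≤ a → a ≤ b → b ≤ R + 1 → ∫ x in a..b, |w x - g x| ≤ δ :=
    fun a b k1 k2 k3 => (intervalIntegral.integral_mono_interval k1 k2 k3
      (Eventually.of_forall fun x => abs_nonneg _) ((iw _ _).sub (ig _ _)).abs).trans hw
  have A : ∫ x in (-R)..R, |w (x - h) - g (x - h)| ≤ δ := by
    rw [intervalIntegral.integral_comp_sub_right (fun x => |w x - g x|) h]
    exact big _ _ (by linarith) (by linarith) (by linarith)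
  have B : ∫ x in (-R)..R, |w x - g x| ≤ δ := big _ _ (by linarith) (by linarith) (by linarith)
  have m : ∫ x in (-R)..R, |w (x - h) - w x| ≤
      ∫ x in (-R)..R, (|w (x - h) - g (x - h)| + |w x - g x| + δ / (2 * R + 1)) := by
    refine intervalIntegral.integral_mono_on (by linarith) (iw'.sub (iw _ _)).abs
      (((iw'.sub ig').abs.add ((iw _ _).sub (ig _ _)).abs).add intervalIntegrable_const)
      fun x hx => ?_
    have k := hη (x - h) ⟨by linarith [hx.1], by linarith [hx.2]⟩ x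
      ⟨by linarith [hx.1], by linarith [hx.2]⟩ (by simpa [Real.dist_eq] using h2)
    rw [Real.dist_eq] at k
    have e : w (x - h) - w x = (w (x - h) - g (x - h)) + -(w x - g x) + (g (x - h) - g x) := by ring
    rw [e]
    refine (abs_add_le _ _).trans (add_le_add ((abs_add_le _ _).trans ?_) k)
    rw [abs_neg]
  rw [intervalIntegral.integral_add ((iw'.sub ig').abs.add ((iw _ _).sub (ig _ _)).abs)
    intervalIntegrable_const, intervalIntegral.integral_add (iw'.sub ig').abs
    ((iw _ _).sub (ig _ _)).abs, intervalIntegral.integral_const, smul_eq_mul] at m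
  have C : (R - -R) * (δ / (2 * R + 1)) ≤ δ := by
    rw [← mul_div_assoc, div_le_iff₀ (by positivity)]
    nlinarith
  linarith

/-- a modulus of continuity that is uniform in time -/
theorem modulus {T M : ℝ} {r : ℝ → ℝ → ℝ} (hr : Sol T M r) {R e : ℝ} (hR : 0 ≤ R) (he : 0 < e) :
    ∃ ε0, 0 < ε0 ∧ ε0 ≤ 1 ∧ ∀ t ∈ Icc 0 T, ∀ h, |h| ≤ ε0 →
      ∫ x in (-R)..R, |r t (x - h) - r t x| ≤ e := by
  have hm : ∀ t, Measurable (r t) := fun t => hr.meas.of_uncurry_left
  have hM : 0 ≤ M := (hr.mem 0 0).1.trans (hr.mem 0 0).2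
  have hab : -(R + 1) ≤ R + 1 := by linarith
  refine (isCompact_Icc (a := 0) (b := T)).induction_on
    (p := fun s => ∃ ε0, 0 < ε0 ∧ ε0 ≤ 1 ∧ ∀ t ∈ s, ∀ h, |h| ≤ ε0 →
      ∫ x in (-R)..R, |r t (x - h) - r t x| ≤ e)
    ⟨1, one_pos, le_rfl, fun t ht => ht.elim⟩
    (fun s t st ⟨ε, a, b, c⟩ => ⟨ε, a, b, fun u hu => c u (st hu)⟩)
    (fun s t ⟨ε, a, b, c⟩ ⟨ε', a', _, c'⟩ => ⟨min ε ε', by positivity, (min_le_left _ _).trans b,
      fun u hu h hh => hu.elim (fun k => c u k h (hh.trans (min_le_left _ _)))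
        fun k => c' u k h (hh.trans (min_le_right _ _))⟩) fun t0 ht0 => ?_
  obtain ⟨g, g1, -, g3⟩ := Block.approx hM (hm t0) (Eventually.of_forall (hr.mem t0)) hab
    (ε := e / 6) (by positivity)
  obtain ⟨ε0, a, b, c⟩ := near g1 hR (δ := e / 3) (by positivity)
  refine ⟨{t | ∫ x in Icc (-(R + 1)) (R + 1), |r t x - r t0 x| < e / 6},
    (hr.cont _ _ t0 ht0).eventually (gt_mem_nhds (by positivity)), ε0, a, b, fun t ht h hh => ?_⟩
  refine (c M (r t) (hm t) (hr.mem t) ?_ h hh).trans (by linarith)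
  have i1 := ii (hm t) (hr.mem t) (-(R + 1)) (R + 1)
  have i0 := ii (hm t0) (hr.mem t0) (-(R + 1)) (R + 1)
  have ig := g1.intervalIntegrable (μ := volume) (-(R + 1)) (R + 1)
  have m : ∫ x in (-(R + 1))..(R + 1), |r t x - g x| ≤
      ∫ x in (-(R + 1))..(R + 1), (|r t x - r t0 x| + |r t0 x - g x|) :=
    intervalIntegral.integral_mono_on hab (i1.sub ig).abs ((i1.sub i0).abs.add (i0.sub ig).abs)
      fun x _ => by simpa using abs_add_le (r t x - r t0 x) (r t0 x - g x)
  rw [intervalIntegral.integral_add (i1.sub i0).abs (i0.sub ig).abs] at m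
  have k : ∫ x in (-(R + 1))..(R + 1), |r t x - r t0 x| < e / 6 := by
    rw [intervalIntegral.integral_of_le hab, ← integral_Icc_eq_integral_Ioc]
    exact ht
  linarith

theorem int_of {ρ : ℝ → ℝ} (hρ : Continuous ρ) {R : ℝ} (h : ∀ x, R < |x| → ρ x = 0) :
    Integrable ρ :=
  hρ.integrable_of_hasCompactSupport (HasCompactSupport.intro (isCompact_Icc (a := -R) (b := R))
    fun x hx => h x (by
      by_contra c
      exact hx (abs_le.1 (not_lt.1 c))))

theorem abs_le_of {u v M : ℝ} (hu : u ∈ Icc 0 M) (hv : v ∈ Icc 0 M) : |u - v| ≤ M :=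
  abs_le.2 ⟨by linarith [hu.1, hv.2], by linarith [hu.2, hv.1]⟩

/-- the estimate at a fixed time -/
theorem fixed {a b ρ χ : ℝ → ℝ} {M R e ε0 : ℝ} (ha : Measurable a) (hb : Measurable b)
    (ma : ∀ x, a x ∈ Icc 0 M) (mb : ∀ x, b x ∈ Icc 0 M) (hR : 0 ≤ R) (cρ : Continuous ρ)
    (cχ : Continuous χ) (pρ : ∀ x, 0 ≤ ρ x) (sρ : ∀ x, ε0 < |x| → ρ x = 0) (oρ : ∫ x, ρ x = 1)
    (mχ : ∀ x, χ x ∈ Icc 0 1) (sχ : ∀ x, R < |x| → χ x = 0)
    (hmod : ∀ h, |h| ≤ ε0 → ∫ x in (-R)..R, |b (x - h) - b x| ≤ e) :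
    |(∫ x, ∫ y, |a x - b y| * (ρ (x - y) * χ x)) - ∫ x, |a x - b x| * χ x| ≤ e := by
  have iρ := int_of cρ sρ
  have iχ := int_of cχ sχ
  have iP : Integrable (fun p : ℝ × ℝ => ρ p.2 * χ p.1) (volume.prod volume) := by
    simpa [mul_comm] using iχ.mul_prod iρ
  have bd : ∀ u : ℝ × ℝ → ℝ, Measurable u → (∀ p, |u p| ≤ M) →
      Integrable (fun p : ℝ × ℝ => u p * (ρ p.2 * χ p.1)) (volume.prod volume) := fun u m k =>
    iP.bdd_mul m.aestronglyMeasurable (Eventually.of_forall k)
  have m1 : Measurable fun p : ℝ × ℝ => |a p.1 - b (p.1 - p.2)| :=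
    ((ha.comp measurable_fst).sub (hb.comp (measurable_fst.sub measurable_snd))).abs
  have m2 : Measurable fun p : ℝ × ℝ => |a p.1 - b p.1| :=
    ((ha.comp measurable_fst).sub (hb.comp measurable_fst)).abs
  have i1 := bd _ m1 fun p => by rw [abs_abs]; exact abs_le_of (ma _) (mb _)
  have i2 := bd _ m2 fun p => by rw [abs_abs]; exact abs_le_of (ma _) (mb _)
  have e1 : ∀ x, ∫ y, |a x - b y| * (ρ (x - y) * χ x) =
      ∫ h, |a x - b (x - h)| * (ρ h * χ x) := fun x => by
    rw [← integral_sub_left_eq_self (fun h => |a x - b (x - h)| * (ρ h * χ x)) volume x]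
    simp only [sub_sub_cancel]
  have e2 : ∀ x, |a x - b x| * χ x = ∫ h, |a x - b x| * (ρ h * χ x) := fun x => by
    rw [integral_const_mul, integral_mul_const, oρ, one_mul]
  simp only [e1, e2]
  have i3 : Integrable (fun p : ℝ × ℝ => |a p.1 - b (p.1 - p.2)| * (ρ p.2 * χ p.1) -
      |a p.1 - b p.1| * (ρ p.2 * χ p.1)) (volume.prod volume) := i1.sub i2
  rw [← integral_prod _ i1, ← integral_prod _ i2, ← integral_sub i1 i2, integral_prod_symm _ i3]
  have key : ∀ h, ‖∫ x, (|a x - b (x - h)| * (ρ h * χ x) - |a x - b x| * (ρ h * χ x))‖ ≤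
      ρ h * e := fun h => by
    by_cases c : ε0 < |h|
    · simp [sρ h c]
    have mh : Measurable fun x => b (x - h) := hb.comp (measurable_id.sub_const h)
    have iv := ((ii mh (fun x => mb _) (-R) R).sub (ii hb mb (-R) R)).abs
    have io : IntegrableOn (fun x => |b (x - h) - b x|) (Icc (-R) R) :=
      (intervalIntegrable_iff_integrableOn_Icc_of_le (by linarith)).1 iv
    have j : Integrable fun x => ρ h * (Icc (-R) R).indicator (fun x => |b (x - h) - b x|) x :=
      ((integrable_indicator_iff measurableSet_Icc).2 io).const_mul _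
    refine (norm_integral_le_of_norm_le j (Eventually.of_forall fun x => ?_)).trans ?_
    · rw [← sub_mul, Real.norm_eq_abs, abs_mul, abs_of_nonneg (mul_nonneg (pρ h) (mχ x).1)]
      by_cases d : x ∈ Icc (-R) R
      · rw [indicator_of_mem d]
        have t : |(|a x - b (x - h)| - |a x - b x|)| ≤ |b (x - h) - b x| := by
          refine (abs_abs_sub_abs_le _ _).trans (le_of_eq ?_)
          rw [abs_sub_comm (b (x - h))]
          congr 1
          ring
        calc _ ≤ |b (x - h) - b x| * (ρ h * 1) :=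
              mul_le_mul t (mul_le_mul_of_nonneg_left (mχ x).2 (pρ h))
                (mul_nonneg (pρ h) (mχ x).1) (abs_nonneg _)
          _ = _ := by ring
      · rw [indicator_of_notMem d, sχ x (by
          by_contra k
          exact d (abs_le.1 (not_lt.1 k)))]
        simp
    · rw [integral_const_mul, integral_indicator measurableSet_Icc, integral_Icc_eq_integral_Ioc,
        ← intervalIntegral.integral_of_le (by linarith)]
      exact mul_le_mul_of_nonneg_left (hmod h (not_lt.1 c)) (pρ h)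
  refine (norm_integral_le_of_norm_le (iρ.mul_const e) (Eventually.of_forall key)).trans ?_
  rw [integral_mul_const, oρ, one_mul]

end Mod

theorem modS : ModS := by
  intro T M r hr R e he
  obtain ⟨ε0, a, b, c⟩ := Mod.modulus hr (abs_nonneg R) he
  refine ⟨ε0, a, b, fun ρ χ q cρ cχ pρ sρ oρ mχ sχ hq t ht => ?_⟩
  exact Mod.fixed hq.meas.of_uncurry_left hr.meas.of_uncurry_left (hq.mem t) (hr.mem t)
    (abs_nonneg R) cρ cχ pρ sρ oρ mχ (fun x k => sχ x ((le_abs_self R).trans_lt k)) (c t ht)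

end MP34a893.E

end MrgPart6

-- ======== part 7: formerly Pool.Agent.MP_34a893_an.E.Kuz
section MrgPart7

/-! Exponential kernel: the stability estimate. -/

open MeasureTheory Set Filter Topology

namespace MP34a893.E

namespace Kuz

theorem exists_chi (A δ : ℝ) (hδ : 0 < δ) : ∃ (R : ℝ) (χ : ℝ → ℝ), A ≤ R ∧ 0 ≤ R ∧
    ContDiff ℝ 1 χ ∧ (∀ x, 0 ≤ χ x) ∧ (∀ x, χ x ≤ (1 + x ^ 2)⁻¹) ∧ (∀ x, R < |x| → χ x = 0) ∧
    (∀ x, |x| ≤ A → χ x = (1 + x ^ 2)⁻¹) ∧ ∀ x, |deriv χ x| ≤ χ x + δ * (1 + x ^ 2)⁻¹ := by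
  let θ : ContDiffBump (0 : ℝ) := ⟨1, 2, one_pos, one_lt_two⟩
  have hθ : ContDiff ℝ 1 θ := θ.contDiff
  obtain ⟨B, hB⟩ := θ.hasCompactSupport.deriv.exists_bound_of_continuous
    (hθ.continuous_deriv le_rfl)
  have hB0 : 0 ≤ B := (norm_nonneg _).trans (hB 0)
  set S := |A| + B / δ + 1 with hS
  have h1 : 0 ≤ B / δ := by positivity
  have h2 := le_abs_self A
  have h3 := abs_nonneg A
  have S0 : 0 < S := by linarith
  have hw : ∀ x : ℝ, 0 < 1 + x ^ 2 := fun x => by positivity
  refine ⟨2 * S, fun x => θ (x / S) * (1 + x ^ 2)⁻¹, by linarith, by linarith, ?_,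
    fun x => mul_nonneg θ.nonneg (inv_pos.2 (hw x)).le,
    fun x => mul_le_of_le_one_left (inv_pos.2 (hw x)).le θ.le_one, fun x hx => ?_, fun x hx => ?_,
    fun x => ?_⟩
  · exact (hθ.comp (contDiff_id.div_const S)).mul
      ((contDiff_const.add (contDiff_id.pow 2)).inv fun x => (hw x).ne')
  · beta_reduce
    rw [θ.zero_of_le_dist, zero_mul]
    rw [Real.dist_eq, sub_zero, abs_div, abs_of_pos S0, le_div_iff₀ S0]
    exact hx.le
  · beta_reduce
    rw [θ.one_of_mem_closedBall, one_mul]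
    rw [Metric.mem_closedBall, Real.dist_eq, sub_zero, abs_div, abs_of_pos S0, div_le_iff₀ S0]
    change _ ≤ 1 * S
    linarith
  · have d1 : HasDerivAt (fun x => θ (x / S)) (deriv θ (x / S) * (1 / S)) x :=
      (hθ.differentiable one_ne_zero _).hasDerivAt.comp x ((hasDerivAt_id x).div_const S)
    have d2 : HasDerivAt (fun x : ℝ => (1 + x ^ 2)⁻¹) (-(2 * x) / (1 + x ^ 2) ^ 2) x := by
      simpa using ((hasDerivAt_pow 2 x).const_add 1).fun_inv (hw x).ne'
    rw [(d1.fun_mul d2).deriv]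
    have e1 : |deriv θ (x / S) * (1 / S)| ≤ δ := by
      rw [abs_mul, abs_of_pos (one_div_pos.2 S0), mul_one_div, div_le_iff₀ S0]
      have : B = δ * (B / δ) := by field_simp
      have h4 : |deriv θ (x / S)| ≤ B := hB _
      nlinarith
    have e2 : |-(2 * x) / (1 + x ^ 2) ^ 2| ≤ (1 + x ^ 2)⁻¹ := by
      rw [abs_div, abs_of_pos (pow_pos (hw x) 2), div_le_iff₀ (pow_pos (hw x) 2), pow_two (1 + _),
        inv_mul_cancel_left₀ (hw x).ne', abs_le]
      constructor <;> nlinarith [sq_nonneg (x - 1), sq_nonneg (x + 1)]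
    refine (abs_add_le _ _).trans ?_
    rw [add_comm, abs_mul (θ _), abs_mul _ (1 + x ^ 2)⁻¹, abs_of_nonneg θ.nonneg,
      abs_of_pos (inv_pos.2 (hw x))]
    exact add_le_add (mul_le_mul_of_nonneg_left e2 θ.nonneg)
      (mul_le_mul_of_nonneg_right e1 (inv_pos.2 (hw x)).le)

theorem exists_rho {ε : ℝ} (hε : 0 < ε) : ∃ ρ : ℝ → ℝ, ContDiff ℝ 1 ρ ∧ (∀ x, 0 ≤ ρ x) ∧
    (∀ x, ε < |x| → ρ x = 0) ∧ Integrable ρ ∧ ∫ x, ρ x = 1 := by
  let θ : ContDiffBump (0 : ℝ) := ⟨ε / 2, ε, half_pos hε, half_lt_self hε⟩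
  refine ⟨θ.normed volume, θ.contDiff_normed, θ.nonneg_normed, fun x hx => ?_,
    θ.integrable_normed, θ.integral_normed⟩
  rw [θ.normed_def, θ.zero_of_le_dist (by simpa [Real.dist_eq] using hx.le), zero_div]

theorem intg {M : ℝ} {h χ : ℝ → ℝ} (hm : AEStronglyMeasurable h) (hb : ∀ x, h x ∈ Icc 0 M)
    (hχ : Continuous χ) (h0 : ∀ x, 0 ≤ χ x) (h1 : ∀ x, χ x ≤ (1 + x ^ 2)⁻¹) :
    Integrable fun x => h x * χ x := by
  refine (integrable_inv_one_add_sq.const_mul M).mono' (hm.mul hχ.aestronglyMeasurable)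
    (Eventually.of_forall fun x => ?_)
  rw [Real.norm_of_nonneg (mul_nonneg (hb x).1 (h0 x))]
  exact mul_le_mul (hb x).2 (h1 x) (h0 x) ((hb x).1.trans (hb x).2)

theorem dif {T M : ℝ} {q r : ℝ → ℝ → ℝ} (hq : Sol T M q) (hr : Sol T M r) (t x y : ℝ) :
    |q t x - r t y| ∈ Icc 0 M := by
  have a := hq.mem t x
  have b := hr.mem t y
  exact ⟨abs_nonneg _, abs_le.2 ⟨by linarith [a.1, b.2], by linarith [a.2, b.1]⟩⟩

theorem ek {T M δ : ℝ} {q r : ℝ → ℝ → ℝ} {ρ χ ψ : ℝ → ℝ} (hq : Sol T M q) (hr : Sol T M r)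
    (r0 : Continuous ρ) (r1 : ∀ x, 0 ≤ ρ x) (r2 : Integrable ρ) (r3 : ∫ x, ρ x = 1)
    (hχ : Continuous χ) (h0 : ∀ x, 0 ≤ χ x) (h1 : ∀ x, χ x ≤ (1 + x ^ 2)⁻¹) (hδ : 0 ≤ δ)
    (p0 : ∀ x, 0 ≤ ψ x) (p1 : ∀ x, ψ x ≤ χ x + δ * (1 + x ^ 2)⁻¹) (t : ℝ) :
    0 ≤ Ek q r ρ χ t ∧ Ek q r ρ ψ t ≤ Ek q r ρ χ t + M * δ * Real.pi := by
  set h : ℝ → ℝ := fun x => ∫ y, |q t x - r t y| * ρ (x - y) with hh
  have e : ∀ φ, Ek q r ρ φ t = ∫ x, h x * φ x := fun φ => by
    simp only [Ek, hh, ← mul_assoc, integral_mul_const]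
  have hb : ∀ x, h x ∈ Icc 0 M := fun x => by
    refine ⟨integral_nonneg fun y => mul_nonneg (abs_nonneg _) (r1 _), ?_⟩
    calc h x ≤ ∫ y, M * ρ (x - y) := integral_mono_of_nonneg
          (Eventually.of_forall fun y => mul_nonneg (abs_nonneg _) (r1 _))
          ((r2.comp_sub_left x).const_mul M)
          (Eventually.of_forall fun y => mul_le_mul_of_nonneg_right (dif hq hr t x y).2 (r1 _))
      _ = M := by rw [integral_const_mul, integral_sub_left_eq_self ρ volume x, r3, mul_one]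
  have m1 : Measurable (q t) := hq.meas.of_uncurry_left
  have m2 : Measurable (r t) := hr.meas.of_uncurry_left
  have m3 := r0.measurable
  have hm : StronglyMeasurable h := StronglyMeasurable.integral_prod_right
    (f := fun x y => |q t x - r t y| * ρ (x - y)) (Measurable.stronglyMeasurable (by
      unfold Function.uncurry
      fun_prop))
  have hi := intg hm.aestronglyMeasurable hb hχ h0 h1
  rw [e, e]
  refine ⟨integral_nonneg fun x => mul_nonneg (hb x).1 (h0 x), ?_⟩
  rw [← integral_univ_inv_one_add_sq, ← integral_const_mul,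
    ← integral_add hi (integrable_inv_one_add_sq.const_mul _)]
  refine integral_mono_of_nonneg (Eventually.of_forall fun x => mul_nonneg (hb x).1 (p0 x))
    (hi.add (integrable_inv_one_add_sq.const_mul _)) (Eventually.of_forall fun x => ?_)
  have a := mul_le_mul_of_nonneg_left (p1 x) (hb x).1
  have b := mul_le_mul_of_nonneg_right (hb x).2
    (mul_nonneg hδ (by positivity : (0 : ℝ) ≤ (1 + x ^ 2)⁻¹))
  simp only
  nlinarith

theorem errInt {C R : ℝ} {err : ℝ → ℝ → ℝ} (h : Err C err) (a b : ℝ) :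
    IntervalIntegrable (fun τ => ∫ x in Icc (-R) R, err τ x) volume a b := by
  have hm : StronglyMeasurable fun τ => ∫ x in Icc (-R) R, err τ x :=
    h.meas.stronglyMeasurable.integral_prod_right
  refine (intervalIntegrable_const (c := C * volume.real (Icc (-R) R))).mono_fun'
    hm.aestronglyMeasurable (Eventually.of_forall fun τ => ?_)
  exact norm_setIntegral_le_of_norm_le_const measure_Icc_lt_top fun x _ => by
    rw [Real.norm_of_nonneg (h.mem τ x).1]
    exact (h.mem τ x).2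

end Kuz

theorem kuzS : DblS → CtsS → ModS → KuzS := by
  intro hD hC hM T M K f r hT hM0 hf hr ar a c e he
  have hK := hf.nonneg
  set A := |a| + |c| + T with hA
  set X := Real.exp ((K + 1) * T) with hX
  have X0 : 0 < X := Real.exp_pos _
  set N := (1 + A ^ 2) * ((1 + 2 * (K + 1)) * X + 2) with hN
  have N0 : 0 < N := by positivity
  set η := e / N with hη
  have η0 : 0 < η := by positivity
  have hπ := Real.pi_pos
  obtain ⟨R, χ, AR, R0, c0, c1, c2, c3, c4, c5⟩ :=
    Kuz.exists_chi A (η / (M * Real.pi)) (by positivity)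
  obtain ⟨ε0, ε1, ε2, hmod⟩ := hM T M r hr R η η0
  obtain ⟨ρ, r0, r1, r2, r3, r4⟩ := Kuz.exists_rho ε1
  have r5 : ∀ x, 1 < |x| → ρ x = 0 := fun x hx => r2 x (ε2.trans_lt hx)
  obtain ⟨D, D0, hdbl⟩ := hD ρ χ R r0 c0 r1 c1 R0 r5 c3
  have ha := abs_nonneg a
  have hc := abs_nonneg c
  refine ⟨R, η / (D + 1), by linarith, by positivity, fun C q err hq her aq h0 hI t ht => ?_⟩
  set J : ℝ → ℝ := fun τ => ∫ x in Icc (-R) R, err τ x with hJ
  have J0 : ∀ τ, 0 ≤ J τ := fun τ => integral_nonneg fun x => (her.mem τ x).1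
  have Ji : ∀ a b, IntervalIntegrable J volume a b := Kuz.errInt her
  have hDI : ∀ s ∈ Icc 0 T, D * ∫ τ in (0 : ℝ)..s, J τ ≤ η := fun s hs => by
    have a1 := intervalIntegral.integral_interval_sub_left (Ji 0 T) (Ji 0 s)
    have a2 := intervalIntegral.integral_nonneg (μ := volume) hs.2 fun τ _ => J0 τ
    calc _ ≤ D * (η / (D + 1)) := mul_le_mul_of_nonneg_left (by linarith) D0
      _ ≤ (D + 1) * (η / (D + 1)) := by gcongr; linarith
      _ = η := by field_simp
  have c6 : ∀ x, χ x ∈ Icc (0 : ℝ) 1 := fun x =>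
    ⟨c1 x, (c2 x).trans (inv_le_one_of_one_le₀ (by nlinarith [sq_nonneg x]))⟩
  have hm := hmod ρ χ q r0.continuous c0.continuous r1 r2 r4 c6 c3 hq
  have hek := Kuz.ek hq hr r0.continuous r1 r3 r4 c0.continuous c1 c2 (by positivity)
    (fun x => abs_nonneg (deriv χ x)) c5
  rw [show M * (η / (M * Real.pi)) * Real.pi = η by field_simp] at hek
  have hg := le_gronwallBound_of_liminf_deriv_right_le
    (f := fun s => Ek q r ρ χ s - D * ∫ τ in (0 : ℝ)..s, J τ)
    (f' := fun s => K * Ek q r ρ (fun x => |deriv χ x|) s) (δ := η) (K := K + 1)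
    (ε := (K + 1) * (2 * η)) (a := 0) (b := T)
    ((hC T M R ρ χ q r r0.continuous c0.continuous r5 c3 hq hr).sub
      (continuous_const.mul (intervalIntegral.continuous_primitive Ji 0)).continuousOn)
    (fun s hs y hy => by
      refine Eventually.frequently ?_
      filter_upwards [hdbl T M K C f q r err hf hq hr her aq ar s hs _ (half_pos (sub_pos.2 hy)),
        self_mem_nhdsWithin] with z hz (hzs : s < z)
      have a1 := intervalIntegral.integral_interval_sub_left (Ji 0 z) (Ji 0 s)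
      have a2 := sub_pos.2 hzs
      rw [inv_mul_lt_iff₀ a2]
      change _ ≤ _ + D * ∫ τ in s..z, J τ at hz
      rw [← a1] at hz
      nlinarith [mul_pos a2 (sub_pos.2 hy)])
    (by
      have a1 := hm 0 ⟨le_rfl, hT.le⟩
      have a2 : ∫ x, |q 0 x - r 0 x| * χ x = 0 :=
        integral_eq_zero_of_ae (h0.mono fun x hx => by simp [hx])
      rw [a2, sub_zero] at a1
      simpa using (le_abs_self _).trans a1)
    (fun s hs => by
      have a1 := hDI s ⟨hs.1, hs.2.le⟩
      have a2 := mul_le_mul_of_nonneg_left (hek s).2 hK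
      have a3 := mul_le_mul_of_nonneg_left a1 (by linarith : 0 ≤ K + 1)
      nlinarith [(hek s).1]) t ht
  rw [gronwallBound_of_K_ne_0 (by positivity : K + 1 ≠ 0), sub_zero,
    mul_div_cancel_left₀ _ (by positivity : K + 1 ≠ 0)] at hg
  have b1 : Real.exp ((K + 1) * t) ≤ X :=
    Real.exp_le_exp.2 (mul_le_mul_of_nonneg_left ht.2 (by positivity))
  have b2 := (abs_le.1 (hm t ht)).1
  have b3 := hDI t ht
  have b4 : ∫ x, |q t x - r t x| * χ x ≤ ((1 + 2 * (K + 1)) * X + 2) * η := by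
    have := mul_le_mul_of_nonneg_left b1 η0.le
    have := mul_nonneg hK (mul_pos X0 η0).le
    simp only at hg
    nlinarith
  have m1 : Measurable (q t) := hq.meas.of_uncurry_left
  have m2 : Measurable (r t) := hr.meas.of_uncurry_left
  have hi := Kuz.intg (h := fun x => |q t x - r t x|) (by fun_prop)
    (fun x => Kuz.dif hq hr t x x) c0.continuous c1 c2
  calc _ ≤ ∫ x in Icc a c, (1 + A ^ 2) * (|q t x - r t x| * χ x) := by
        refine integral_mono_of_nonneg (Eventually.of_forall fun x => abs_nonneg _)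
          (hi.const_mul _).integrableOn ?_
        filter_upwards [ae_restrict_mem measurableSet_Icc] with x hx
        have a1 : |x| ≤ A := abs_le.2
          ⟨by linarith [hx.1, neg_abs_le a], by linarith [hx.2, le_abs_self c]⟩
        have a2 : x ^ 2 ≤ A ^ 2 := sq_le_sq' (abs_le.1 a1).1 (abs_le.1 a1).2
        rw [c4 x a1, mul_left_comm]
        refine le_mul_of_one_le_right (abs_nonneg _) ?_
        rw [← div_eq_mul_inv, one_le_div₀ (by positivity)]
        linarith
    _ ≤ ∫ x, (1 + A ^ 2) * (|q t x - r t x| * χ x) :=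
        setIntegral_le_integral (hi.const_mul _) (Eventually.of_forall fun x =>
          mul_nonneg (by positivity) (mul_nonneg (abs_nonneg _) (c1 x)))
    _ ≤ (1 + A ^ 2) * (((1 + 2 * (K + 1)) * X + 2) * η) := by
        rw [integral_const_mul]
        gcongr
    _ = e := by rw [← mul_assoc, ← hN, hη]; field_simp

end MP34a893.E

end MrgPart7

-- ======== part 8: formerly Pool.Agent.MP_34a893_an.E.Final
section MrgPart8

/-! Assembly for the exponential kernel. -/

open MeasureTheory Set Filter Topology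

namespace MP34a893.E

namespace Final

theorem b_pos {P : Par} {M : ℝ} {V : ℝ → ℝ} (hM : 0 < M) (h : ∀ q, 0 ≤ q → P.Φ (q ^ P.p) = V q)
    (hV : ∀ x ∈ Ioo 0 M, deriv V x < 0) : ∀ z ∈ Ioo 0 (P.N M), 0 < P.b z := by
  intro z hz
  have hp := P.hp0
  have hr : 0 < z ^ (1 / P.p) := Real.rpow_pos_of_pos hz.1 _
  have hz' : (z ^ (1 / P.p)) ^ P.p = z := by
    rw [← Real.rpow_mul hz.1.le, one_div_mul_cancel hp.ne', Real.rpow_one]
  have hrM : z ^ (1 / P.p) < M := by
    refine (Real.rpow_lt_rpow_iff hr.le hM.le hp).1 ?_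
    rw [hz']
    exact hz.2
  have hV' := hV _ ⟨hr, hrM⟩
  generalize z ^ (1 / P.p) = r at hr hz' hV'
  have d1 : HasDerivAt (fun q : ℝ => P.Φ (q ^ P.p)) (-P.b (r ^ P.p) * (P.p * r ^ (P.p - 1))) r :=
    (P.hΦ (r ^ P.p)).comp r (Real.hasDerivAt_rpow_const (.inl hr.ne'))
  have d2 : HasDerivAt V (-P.b (r ^ P.p) * (P.p * r ^ (P.p - 1))) r :=
    d1.congr_of_eventuallyEq ((eventually_ge_nhds hr).mono fun q hq => (h q hq).symm)
  rw [d2.deriv, hz'] at hV'
  refine (P.hb0 _).lt_of_ne fun e => ?_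
  rw [← e] at hV'
  simp at hV'

end Final

open Final in
theorem mainS (hPar : ParS) (hPot : PotS) (hR : RangeS) (hSc : ScaleS) (hPF : ParFactsS)
    (hLF : LagFactsS) (hEnt : EntBS) (hErr : ErrS) (hExp : ExpS) (hKer : KerS) (hSca : ScaS)
    (hLoc : LocS) (hKuz : KuzS) : MainS := by
  intro p l T M V q0 q qs hp0 hp1 hl hT hM hV hV' hVs hq0m hq0 hq hqs a c e he
  have hγ := hKer p l hp0 hl
  obtain ⟨P, hPp, hPk, hPΦ, -⟩ := hPar p V _ hp0 hp1 hV hV' hγ
  subst hPp
  have F := hPF P M hM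
  have hk : ∀ s, 0 ≤ s → P.k s = l * Real.exp (-(l * s)) := fun s hs => by
    rw [hPk s hs, ← Real.rpow_mul (by positivity), one_div_mul_cancel hp0.ne', Real.rpow_one]
  have hf : ∀ κ ∈ Icc 0 M, P.f κ = V κ * κ := fun κ hκ => by rw [Par.f, hPΦ κ hκ.1, mul_comm]
  have hrange := hR T M V q0 qs hT hV hq0m hq0 hqs
  obtain ⟨CV, hCV⟩ := isCompact_Icc.exists_bound_of_continuousOn
    (hV.continuous.continuousOn (s := Icc 0 M))
  have hCV0 : 0 ≤ CV := (norm_nonneg _).trans (hCV 0 ⟨le_rfl, hM.le⟩)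
  have hqsm : Measurable (Function.uncurry qs) := hqs.1.1
  have hFm : Measurable (Function.uncurry fun t x => V (qs t x) * qs t x) :=
    (hV.continuous.measurable.comp hqsm).mul hqsm
  obtain ⟨-, -, -, hqs0⟩ := hPot T (M + CV * M) q0 qs (fun t x => V (qs t x) * qs t x) hT
    hqsm hFm (fun t ht => (hrange t ht).mono fun x hx => by
      constructor
      · rw [abs_of_nonneg hx.1]
        nlinarith [hx.2]
      · rw [abs_mul, abs_of_nonneg hx.1]
        have := mul_le_mul (hCV _ hx) hx.2 hx.1 hCV0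
        rw [Real.norm_eq_abs] at this
        linarith) hq0m (fun x => by
      rw [abs_of_nonneg (hq0 x).1]
      nlinarith [(hq0 x).2]) hqs.2.1 hqs.2.2.1
  obtain ⟨K, hK⟩ := (hV.mul contDiff_id).contDiffOn.exists_lipschitzOnWith one_ne_zero
    (convex_Icc 0 M) isCompact_Icc
  have hFl : Flux M K P.f := ⟨F.f_meas, K.2, fun x hx y hy => by
    rw [hf x hx, hf y hy]
    exact hK.dist_le_mul x hx y hy⟩
  obtain ⟨hrS, hrA⟩ := hLoc T M V q0 P.f qs hT hM hV hqs hrange hf
  have hre : ∀ t ∈ Icc 0 T, ∀ᵐ x, max 0 (min (qs t x) M) = qs t x := fun t ht =>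
    (hrange t ht).mono fun x hx => by rw [min_eq_left hx.2, max_eq_right hx.1]
  obtain ⟨R, e2, hTR, he2, hkuz⟩ := hKuz T M K P.f _ hT hM hFl hrS hrA a c e he
  have hR0 : 0 < R := hT.trans_le hTR
  obtain ⟨S0, hS0, herr⟩ := hErr P M hM (b_pos hM hPΦ hVs) (e2 / (2 * M * R ^ 2)) (by positivity)
  refine ⟨R / S0, by positivity, fun η hη hη0 t ht => ?_⟩
  obtain ⟨L, Q, hLT, hL0, hLq, -, hP⟩ := hSc P η T M V _ q0 (q η) hη hT hM hPk
    (fun s hs => hγ.2.2.2.1 s hs) hPΦ hV.continuous hγ.1 hq0m hq0 (hq η hη)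
  have LF := hLF P M L hM
  have hex := hExp P M l L hM hl hk
  have hsc : Measurable fun z : ℝ × ℝ => (z.1 / η, z.2 / η) := by fun_prop
  have hS : Sol T M fun t x => L.q (t / η) (x / η) :=
    ⟨hP.q_meas, fun _ _ => LF.q_mem _ _, fun a b t0 ht0 => by
      refine ((hq η hη).2.2.1 a b t0 ht0).congr' (eventually_mem_nhdsWithin.mono fun τ hτ => ?_)
      refine integral_congr_ae (ae_restrict_of_ae ?_)
      filter_upwards [hLq τ hτ, hLq t0 ht0] with x h1 h2
      rw [h1, h2]⟩
  have hum : ∀ τ x, L.u τ x ∈ Icc 0 (P.N M) := fun τ x => ⟨LF.u_nonneg τ x, L.u_le τ x⟩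
  have hE : Err (2 * M * (P.bm M * P.N M)) fun t x =>
      2 * M * |L.v (t / η) (x / η) - P.Φ (L.u (t / η) (x / η))| :=
    ⟨(((LF.v_cont.measurable.comp hsc).sub
      (F.Φ_cont.measurable.comp (L.u_meas.comp hsc))).abs).const_mul _, fun τ x => by
      refine ⟨by positivity, mul_le_mul_of_nonneg_left ?_ (by positivity)⟩
      have h1 := LF.Z_mem (τ / η) (x / η)
      have h2 := hum (τ / η) (x / η)
      refine (F.Φ_lip _ h1 _ h2).trans (mul_le_mul_of_nonneg_left ?_ F.bm_nonneg)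
      rw [abs_le]
      constructor <;> linarith [h1.1, h1.2, h2.1, h2.2]⟩
  have hA := hSca T M η P.f _ _ hη (hLT ▸ hEnt P M L hM hex)
  have h0 : ∀ᵐ x, L.q (0 / η) (x / η) = max 0 (min (qs 0 x) M) := by
    filter_upwards [hqs0, hre 0 ⟨le_rfl, hT.le⟩] with x h1 h2
    rw [h2, h1, zero_div, Lag.q, LF.u_zero, hL0, mul_div_cancel₀ _ hη.ne',
      ← Real.rpow_mul (hq0 x).1, mul_one_div_cancel hp0.ne', Real.rpow_one]
  have hI : ∫ τ in (0 : ℝ)..T, ∫ x in Icc (-R) R,
      2 * M * |L.v (τ / η) (x / η) - P.Φ (L.u (τ / η) (x / η))| ≤ e2 := by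
    have h1 := herr L (R / η) (T / η) hex (by
      rw [lt_div_iff₀ hS0] at hη0
      rw [le_div_iff₀ hη]
      linarith) (by positivity) (by gcongr) hLT.ge
    have h2 : ∀ τ, ∫ x in Icc (-R) R, 2 * M * |L.v τ (x / η) - P.Φ (L.u τ (x / η))| =
        2 * M * η * ∫ x in (-(R / η))..(R / η), |L.v τ x - P.Φ (L.u τ x)| := fun τ => by
      rw [integral_Icc_eq_integral_Ioc, ← intervalIntegral.integral_of_le (by linarith),
        intervalIntegral.integral_const_mul, intervalIntegral.integral_comp_div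
          (fun x => |L.v τ x - P.Φ (L.u τ x)|) hη.ne', smul_eq_mul, neg_div, mul_assoc (2 * M)]
    simp only [h2]
    rw [intervalIntegral.integral_const_mul, intervalIntegral.integral_comp_div
      (fun τ => ∫ x in (-(R / η))..(R / η), |L.v τ x - P.Φ (L.u τ x)|) hη.ne', smul_eq_mul, zero_div]
    calc _ ≤ 2 * M * η * (η * (e2 / (2 * M * R ^ 2) * (R / η) ^ 2)) := by gcongr
      _ = e2 := by field_simp
  refine le_of_eq_of_le (integral_congr_ae (ae_restrict_of_ae ?_)) (hkuz _ _ _ hS hE hA h0 hI t ht)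
  filter_upwards [hLq t ht, hre t ht] with x h1 h2
  rw [h1, h2]

end MP34a893.E

end MrgPart8

-- marker of a merged file
example : 731051 + 318624 = 731051 + 318624 := rfl
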