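import Pool.Agent.MP_34a893_an.Block
import Pool.Agent.MP_34a893_an.Scale
import Pool.Agent.MP_34a893_an.E.Final
import Pool.Agent.MP_34a893_an.E.Dbl

namespace MP34a893.E

theorem lag_all : LagFactsS := lagFactsS parFactsS covS (velS parFactsS)

theorem main_all : MainS :=
  mainS parS (potS sliceS) (rangeS sliceS coneS)
    (scaleS parFactsS lag_all (potS sliceS)
      (lagS parFactsS convS (velS parFactsS) flowS constS covS jacOdeS) (maxS parFactsS lag_all))
    parFactsS lag_all (entBS parFactsS lag_all absXS (entAS2 parFactsS lag_all absTS))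
    (errS parFactsS lag_all chainS (disS parFactsS lag_all chainS)) (expS parFactsS) kerS scaS locS
    (kuzS (dblS oneS) ctsS modS)

end MP34a893.E
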