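import Mathlib
import Pool.Agent.MP_34a893_an.E.Spec

/-! Exponential kernel, row EntA: the entropy identity along the flow. -/

open MeasureTheory Set Filter Topology

namespace MP34a893.E

namespace EntA

theorem measurable_sign : Measurable Real.sign :=
  Measurable.ite (measurableSet_lt measurable_id measurable_const) measurable_const
    (Measurable.ite (measurableSet_lt measurable_const measurable_id) measurable_const
      measurable_const)

theorem abs_sign (x : ℝ) : |Real.sign x| ≤ 1 := by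
  rcases Real.sign_apply_eq x with h | h | h <;> simp [h]

theorem sign_mul {j : ℝ} (hj : 0 < j) (x : ℝ) : Real.sign (x * j) = Real.sign x := by
  rcases lt_trichotomy x 0 with h | h | h
  · rw [Real.sign_of_neg h, Real.sign_of_neg (mul_neg_of_neg_of_pos h hj)]
  · rw [h, zero_mul]
  · rw [Real.sign_of_pos h, Real.sign_of_pos (mul_pos h hj)]

theorem abs_mul_le {a b A B : ℝ} (h1 : |a| ≤ A) (h2 : |b| ≤ B) : |a * b| ≤ A * B := by
  rw [abs_mul]
  exact mul_le_mul h1 h2 (abs_nonneg _) ((abs_nonneg _).trans h1)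

variable {P : Par} {M : ℝ} {L : Lag P M}

theorem lift (hL : L.Facts) {R t : ℝ} (ht : t ∈ Icc 0 L.T) (φ : ℝ → ℝ) (hφ : Measurable φ)
    (hb : ∃ C, ∀ x, |φ x| ≤ C) (h0 : ∀ x, R ≤ |x| → φ x = 0) :
    ∫ x, φ x = ∫ y in (-(R + P.Vm M * L.T + 1))..(R + P.Vm M * L.T + 1),
      φ (L.X t y) * L.j t y := by
  have hV : 0 ≤ P.Vm M := (abs_nonneg _).trans (hL.v_abs 0 0)
  have h1 : ∀ y, |L.X t y - y| ≤ P.Vm M * L.T := fun y => by
    have := hL.X_lip y t ht 0 (left_mem_Icc.2 L.hT)
    rw [L.X_zero, sub_zero, abs_of_nonneg ht.1] at this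
    exact this.trans (mul_le_mul_of_nonneg_left ht.2 hV)
  rw [← hL.cov_int t φ hφ hb, intervalIntegral.integral_eq_integral_of_support_subset]
  intro x hx
  have h2 : |x| < R := not_le.1 fun h => hx (h0 x h)
  have h3 := abs_le.1 (h1 (-(R + P.Vm M * L.T + 1)))
  have h4 := abs_le.1 (h1 (R + P.Vm M * L.T + 1))
  have h5 := abs_lt.1 h2
  constructor <;> linarith [h3.1, h3.2, h4.1, h4.2, h5.1, h5.2]

theorem j_le (hL : L.Facts) (hC : 0 ≤ P.C0 M) (t y : ℝ) :
    |L.j t y| ≤ Real.exp (P.C0 M * L.T) := by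
  have h1 : max 0 (min t L.T) ∈ Icc 0 L.T :=
    ⟨le_max_left _ _, max_le L.hT (min_le_right _ _)⟩
  have h2 := hL.j_ratio y _ h1 0 (left_mem_Icc.2 L.hT)
  rw [L.j_zero, mul_one, sub_zero, abs_of_nonneg h1.1] at h2
  rw [abs_of_pos (L.j_pos t y), L.j_clamp]
  exact h2.trans (Real.exp_le_exp.2 (mul_le_mul_of_nonneg_left h1.2 hC))

theorem w_le (hP : P.Facts M) (hL : L.Facts) (t x : ℝ) :
    |P.b (L.Z t x) * (P.k0 * L.u t x - L.G t x)| ≤ P.C0 M := by
  have h1 := hL.G_mem t x
  have h2 := mul_le_mul_of_nonneg_left (L.u_le t x) hP.k0_pos.le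
  have h3 := mul_nonneg hP.k0_pos.le (hL.u_nonneg t x)
  rw [Par.C0, mul_assoc]
  refine abs_mul_le ((abs_of_nonneg (P.hb0 _)).trans_le (hP.b_le _ (hL.Z_mem t x))) ?_
  rw [abs_le]
  constructor <;> linarith [h1.1, h1.2]

end EntA

open EntA in
theorem entAS : ParFactsS → LagFactsS → AbsTS → EntAS := by
  intro hpar hlag hab P M L hM κ ζ hζ sζ t1 t2 h1 h12 h2
  have hP := hpar P M hM
  have hL := hlag P M L hM
  have cζ' : Continuous (deriv ζ) := hζ.continuous_deriv le_rfl
  obtain ⟨K, hK⟩ := hζ.continuous.bounded_above_of_compact_support sζ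
  obtain ⟨D, hD⟩ := cζ'.bounded_above_of_compact_support sζ.deriv
  obtain ⟨R1, p1, hR1⟩ := sζ.exists_pos_le_norm
  obtain ⟨R2, -, hR2⟩ := sζ.deriv.exists_pos_le_norm
  simp only [Real.norm_eq_abs] at hK hD hR1 hR2
  have hC : 0 ≤ P.C0 M := (abs_nonneg _).trans (w_le hP hL 0 0)
  have hV : 0 ≤ P.Vm M := (abs_nonneg _).trans (hL.v_abs 0 0)
  have hs : Icc t1 t2 ⊆ Icc 0 L.T := Icc_subset_Icc h1 h2
  let w : ℝ → ℝ → ℝ := fun t x => P.b (L.Z t x) * (P.k0 * L.u t x - L.G t x)
  let A : ℝ → ℝ → ℝ := fun t x => |L.q t x - κ| * ζ x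
  let B : ℝ → ℝ → ℝ := fun t x => -κ * Real.sign (L.q t x - κ) * w t x * ζ x +
    |L.q t x - κ| * L.v t x * deriv ζ x
  have mq : Measurable fun z : ℝ × ℝ => L.q z.1 z.2 - κ := hL.q_meas.sub_const κ
  have mw : Measurable fun z : ℝ × ℝ => w z.1 z.2 :=
    (P.hb.comp L.Z_cont).measurable.mul ((L.u_meas.const_mul _).sub L.G_cont.measurable)
  have mA : Measurable fun z : ℝ × ℝ => A z.1 z.2 :=
    mq.abs.mul (hζ.continuous.measurable.comp measurable_snd)
  have mB : Measurable fun z : ℝ × ℝ => B z.1 z.2 :=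
    ((((measurable_sign.comp mq).const_mul _).mul mw).mul
      (hζ.continuous.measurable.comp measurable_snd)).add
      ((mq.abs.mul hL.v_cont.measurable).mul (cζ'.measurable.comp measurable_snd))
  have bq : ∀ t x, |(|L.q t x - κ|)| ≤ M + |κ| := fun t x => by
    rw [abs_abs]
    exact (abs_sub _ _).trans (add_le_add
      ((abs_of_nonneg (hL.q_mem t x).1).trans_le (hL.q_mem t x).2) le_rfl)
  have bA : ∀ t x, |A t x| ≤ (M + |κ|) * K := fun t x => abs_mul_le (bq t x) (hK x)
  have bB : ∀ t x, |B t x| ≤ |κ| * 1 * P.C0 M * K + (M + |κ|) * P.Vm M * D := fun t x =>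
    (abs_add_le _ _).trans (add_le_add
      (abs_mul_le (abs_mul_le (abs_mul_le (abs_neg κ).le (abs_sign _)) (w_le hP hL t x)) (hK x))
      (abs_mul_le (abs_mul_le (bq t x) (hL.v_abs t x)) (hD x)))
  have mX : Measurable fun z : ℝ × ℝ => (z.1, L.X z.1 z.2) :=
    measurable_fst.prodMk L.X_cont.measurable
  have lA : ∀ t ∈ Icc 0 L.T, _ := fun t ht =>
    lift (R := max R1 R2) hL ht (A t) (Measurable.of_uncurry_left (f := A) mA) ⟨_, bA t⟩ fun x hx => by
      simp only [A, hR1 x ((le_max_left _ _).trans hx), mul_zero]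
  have lB : ∀ t ∈ Icc 0 L.T, _ := fun t ht =>
    lift (R := max R1 R2) hL ht (B t) (Measurable.of_uncurry_left (f := B) mB) ⟨_, bB t⟩ fun x hx => by
      simp only [B, hR1 x ((le_max_left _ _).trans hx), hR2 x ((le_max_right _ _).trans hx),
        mul_zero, add_zero]
  have hS : -(max R1 R2 + P.Vm M * L.T + 1) ≤ max R1 R2 + P.Vm M * L.T + 1 := by
    have := le_max_left R1 R2
    have := mul_nonneg hV L.hT
    linarith
  generalize max R1 R2 + P.Vm M * L.T + 1 = S at lA lB hS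
  have key : ∀ y, A t2 (L.X t2 y) * L.j t2 y - A t1 (L.X t1 y) * L.j t1 y =
      ∫ t in t1..t2, B t (L.X t y) * L.j t y := fun y => by
    have e : ∀ t, L.q0 y - κ * L.j t y = (L.q t (L.X t y) - κ) * L.j t y := fun t => by
      rw [sub_mul, hL.qj]
    have h := hab (fun t => L.q0 y - κ * L.j t y) (fun t => -(κ * (L.j t y * w t (L.X t y))))
      (fun t => ζ (L.X t y)) (fun t => deriv ζ (L.X t y) * L.v t (L.X t y))
      (max (|κ| * (Real.exp (P.C0 M * L.T) * P.C0 M)) (D * P.Vm M)) t1 t2 h12 fun t ht =>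
      ⟨(((L.j_deriv y t (hs ht)).mono hs).const_mul κ).const_sub _,
        (hζ.differentiable_one _).hasDerivAt.comp_hasDerivWithinAt t
          ((L.X_deriv y t (hs ht)).mono hs),
        le_max_of_le_left ((abs_neg _).trans_le
          (abs_mul_le le_rfl (abs_mul_le (j_le hL hC t y) (w_le hP hL t _)))),
        le_max_of_le_right (abs_mul_le (hD _) (hL.v_abs _ _))⟩
    simp only [e, abs_mul, abs_of_pos (L.j_pos _ y), sign_mul (L.j_pos _ y)] at h
    have e2 : ∀ t, B t (L.X t y) * L.j t y = Real.sign (L.q t (L.X t y) - κ) *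
        -(κ * (L.j t y * w t (L.X t y))) * ζ (L.X t y) + |L.q t (L.X t y) - κ| * L.j t y *
          (deriv ζ (L.X t y) * L.v t (L.X t y)) := fun t => by
      simp only [B]
      ring
    simp only [e2]
    rw [← h]
    simp only [A]
    ring
  have mA' : Measurable (Function.uncurry fun t y => A t (L.X t y) * L.j t y) :=
    (mA.comp (f := fun z : ℝ × ℝ => (z.1, L.X z.1 z.2)) mX).mul L.j_meas
  have mB' : Measurable (Function.uncurry fun t y => B t (L.X t y) * L.j t y) :=
    (mB.comp (f := fun z : ℝ × ℝ => (z.1, L.X z.1 z.2)) mX).mul L.j_meas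
  have iA : ∀ t, IntervalIntegrable (fun y => A t (L.X t y) * L.j t y) volume (-S) S := fun t =>
    (intervalIntegrable_const (c := (M + |κ|) * K * Real.exp (P.C0 M * L.T))).mono_fun'
      (mA'.of_uncurry_left (x := t)).aestronglyMeasurable
      (Eventually.of_forall fun y => abs_mul_le (bA _ _) (j_le hL hC t y))
  have iB : Integrable (Function.uncurry fun t y => B t (L.X t y) * L.j t y)
      ((volume.restrict (uIoc t1 t2)).prod (volume.restrict (Ioc (-S) S))) := by
    rw [uIoc_of_le h12]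
    exact Integrable.of_bound mB'.aestronglyMeasurable _
      (Eventually.of_forall fun z => abs_mul_le (bB _ _) (j_le hL hC z.1 z.2))
  have e1 : ∫ t in t1..t2, ∫ x, B t x =
      ∫ t in t1..t2, ∫ y in Ioc (-S) S, B t (L.X t y) * L.j t y :=
    intervalIntegral.integral_congr fun t ht => by
      rw [uIcc_of_le h12] at ht
      simp only [lB t (hs ht), intervalIntegral.integral_of_le hS]
  change ∫ x, A t2 x = (∫ x, A t1 x) + ∫ t in t1..t2, ∫ x, B t x
  rw [e1, intervalIntegral_integral_swap iB, ← intervalIntegral.integral_of_le hS,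
    lA t2 ⟨h1.trans h12, h2⟩, lA t1 ⟨h1, h12.trans h2⟩, ← sub_eq_iff_eq_add',
    ← intervalIntegral.integral_sub (iA t2) (iA t1)]
  simp only [key]

end MP34a893.E
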